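import Mathlib

/-!
Definitions: `G`-posets, the realisation of the order complex, the joins `E_k G`,
the mapping index, the posets `Q_n G` and the cross-index.
-/

set_option autoImplicit false

namespace Pool.Agent.Lib.MP_28f43d_co

universe u

/-- A `G`-poset: a poset on which `G` acts by order preserving maps. -/
class GPoset (G P : Type*) [Group G] [PartialOrder P] [MulAction G P] : Prop where
  smul_le : ∀ (g : G) (p q : P), p ≤ q → g • p ≤ g • q

/-- The points of the geometric realisation of the order complex of the finite poset `P`, in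
barycentric coordinates: nonnegative weights of total mass one on a chain of `P`. -/
def realSet (P : Type*) [Fintype P] [PartialOrder P] : Set (P → ℝ) :=
  {t | (∀ p, 0 ≤ t p) ∧ ∑ p, t p = 1 ∧ ∀ p q, t p ≠ 0 → t q ≠ 0 → p ≤ q ∨ q ≤ p}

/-- The geometric realisation of the order complex of the finite poset `P`, as a topological
space (with the topology induced from the space of all functions). -/
abbrev Realization (P : Type*) [Fintype P] [PartialOrder P] : Type _ := ↥(realSet P)

/-- The action of the group on the realisation, permuting the barycentric coordinates. -/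
instance realizationAction (G P : Type*) [Group G] [Fintype P] [PartialOrder P] [MulAction G P]
    [GPoset G P] : MulAction G (Realization P) where
  smul g t := ⟨fun p => t.1 (g⁻¹ • p), fun p => t.2.1 _, by
    have h := t.2.2.1
    rw [← h]
    exact Fintype.sum_equiv (MulAction.toPerm g⁻¹) _ _ (fun p => rfl),
    fun p q hp hq => by
      rcases t.2.2.2 _ _ hp hq with h | h
      · left; have := GPoset.smul_le g _ _ h; simpa using this
      · right; have := GPoset.smul_le g _ _ h; simpa using this⟩
  one_smul t := by
    apply Subtype.ext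
    funext p
    show t.1 ((1 : G)⁻¹ • p) = t.1 p
    simp
  mul_smul g h t := by
    apply Subtype.ext
    funext p
    show t.1 ((g * h)⁻¹ • p) = t.1 (h⁻¹ • g⁻¹ • p)
    rw [mul_inv_rev, mul_smul]

/-- The points of the `(k+1)`-fold join of the finite discrete space `G`, in barycentric
coordinates: nonnegative weights of total mass one on `G × {0,...,k}`, at most one element
of each of the `k+1` copies of `G` carrying a nonzero weight. -/
def joinSet (G : Type*) [Fintype G] (k : ℕ) : Set (G × Fin (k + 1) → ℝ) :=
  {t | (∀ v, 0 ≤ t v) ∧ ∑ v, t v = 1 ∧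
    ∀ (i : Fin (k + 1)) (g h : G), t (g, i) ≠ 0 → t (h, i) ≠ 0 → g = h}

/-- The `(k+1)`-fold join `E_k G` of `G`. -/
abbrev EG (G : Type*) [Fintype G] (k : ℕ) : Type _ := ↥(joinSet G k)

/-- The diagonal action of `G` on `E_k G` by left multiplication. -/
instance joinAction (G : Type*) [Group G] [Fintype G] (k : ℕ) : MulAction G (EG G k) where
  smul g t := ⟨fun v => t.1 (g⁻¹ * v.1, v.2), fun v => t.2.1 _, by
    have h := t.2.2.1
    rw [← h]
    exact Fintype.sum_equiv (Equiv.prodCongr (Equiv.mulLeft g⁻¹) (Equiv.refl _)) _ _
      (fun v => rfl),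
    fun i a b ha hb => by
      have := t.2.2.2 i (g⁻¹ * a) (g⁻¹ * b) ha hb
      exact mul_left_cancel this⟩
  one_smul t := by
    apply Subtype.ext
    funext v
    show t.1 ((1 : G)⁻¹ * v.1, v.2) = t.1 v
    simp
  mul_smul g h t := by
    apply Subtype.ext
    funext v
    show t.1 ((g * h)⁻¹ * v.1, v.2) = t.1 (h⁻¹ * (g⁻¹ * v.1), v.2)
    rw [mul_inv_rev, mul_assoc]

/-- The set of all `k` for which there is a continuous `G`-equivariant map `X → E_k G`; its least
element is the mapping index of `X`. -/
def indSet (G X : Type*) [Group G] [Fintype G] [TopologicalSpace X] [MulAction G X] : Set ℕ :=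
  {k | ∃ f : X → EG G k, Continuous f ∧ ∀ (g : G) (x : X), f (g • x) = g • f x}

/-- The ground set of the poset `Q_n G`. -/
def Q (G : Type*) (n : ℕ) : Type _ := G × Fin (n + 1)

/-- The order of `Q_n G`: `(g, i) < (h, j)` if and only if `i < j`. -/
instance Q.partialOrder (G : Type*) (n : ℕ) : PartialOrder (Q G n) where
  le a b := a = b ∨ a.2 < b.2
  lt a b := a.2 < b.2
  le_refl a := Or.inl rfl
  le_trans a b c hab hbc := by
    rcases hab with rfl | hab
    · exact hbc
    · rcases hbc with rfl | hbc
      · exact Or.inr hab
      · exact Or.inr (hab.trans hbc)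
  le_antisymm a b hab hba := by
    rcases hab with h | hab
    · exact h
    · rcases hba with h | hba
      · exact h.symm
      · exact absurd (hab.trans hba) (lt_irrefl _)
  lt_iff_le_not_ge a b := by
    constructor
    · intro h
      refine ⟨Or.inr h, ?_⟩
      rintro (h' | h')
      · rw [h'] at h; exact lt_irrefl _ h
      · exact lt_irrefl _ (h.trans h')
    · rintro ⟨h | h, h'⟩
      · exact absurd (Or.inl h.symm) h'
      · exact h

/-- The action on `Q_n G`: `g • (h, i) = (g h, i)`. -/
instance Q.mulAction (G : Type*) [Group G] (n : ℕ) : MulAction G (Q G n) where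
  smul g a := (g * a.1, a.2)
  one_smul a := by
    show (1 * a.1, a.2) = a
    rw [one_mul]
    rfl
  mul_smul g h a := by
    show (g * h * a.1, a.2) = (g * (h * a.1), a.2)
    rw [mul_assoc]

/-- The set of all `n` for which there is an order preserving `G`-equivariant map `P → Q_n G`; its
least element is the cross-index of `P`. -/
def xindSet (G P : Type*) [Group G] [PartialOrder P] [MulAction G P] : Set ℕ :=
  {n | ∃ f : P → Q G n, Monotone f ∧ ∀ (g : G) (p : P), f (g • p) = g • f p}

end Pool.Agent.Lib.MP_28f43d_co
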