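import Mathlib

/-!
Ordered chains on a set of points, with cone, prism and the augmented boundary map.
A chain is an element of the free abelian group on lists of points.
-/

set_option autoImplicit false

namespace Pool.Agent.Lib.MP_28f43d_co

open FreeAbelianGroup

/-- Integral chains: formal sums of finite ordered tuples of points of `V`. -/
abbrev Ch (V : Type*) := FreeAbelianGroup (List V)

variable {V W X : Type*}

/-- Cone with apex `x`. -/
def cone (x : V) : Ch V →+ Ch V := FreeAbelianGroup.map (fun σ => x :: σ)

@[simp] lemma cone_of (x : V) (σ : List V) : cone x (of σ) = of (x :: σ) := by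
  simp [cone, map_of_apply]

/-- Boundary of one tuple (augmented: the boundary of `[x]` is the empty tuple). -/
def dl : List V → Ch V
  | [] => 0
  | x :: σ => of σ - cone x (dl σ)

/-- The augmented boundary map. -/
def bd : Ch V →+ Ch V := FreeAbelianGroup.lift dl

@[simp] lemma bd_of (σ : List V) : bd (of σ) = dl σ := by simp [bd, lift_apply_of]

lemma dl_cons (x : V) (σ : List V) : dl (x :: σ) = of σ - cone x (dl σ) := rfl

/-- Two additive maps out of chains agree if they agree on tuples. -/
lemma ch_ext {A : Type*} [AddCommGroup A] {f g : Ch V →+ A} (h : ∀ σ, f (of σ) = g (of σ))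
    (c : Ch V) : f c = g c := by
  have : f = g := FreeAbelianGroup.lift_ext _ _ h
  rw [this]

lemma bd_cone (x : V) (c : Ch V) : bd (cone x c) = c - cone x (bd c) := by
  have := ch_ext (f := bd.comp (cone x)) (g := AddMonoidHom.id _ - (cone x).comp bd)
    (fun σ => by simp [dl_cons]) c
  simpa using this

lemma bd_dl (σ : List V) : bd (dl σ) = 0 := by
  induction σ with
  | nil => simp [dl]
  | cons x σ ih => simp [dl_cons, bd_cone, ih]

lemma bd_bd (c : Ch V) : bd (bd c) = 0 := by
  have := ch_ext (f := bd.comp bd) (g := 0) (fun σ => by simp [bd_dl]) c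
  simpa using this

/-- The chain map induced by a map of points. -/
def mp (H : V → W) : Ch V →+ Ch W := FreeAbelianGroup.map (List.map H)

@[simp] lemma mp_of (H : V → W) (σ : List V) : mp H (of σ) = of (σ.map H) := by
  simp [mp, map_of_apply]

lemma mp_cone (H : V → W) (x : V) (c : Ch V) : mp H (cone x c) = cone (H x) (mp H c) := by
  have := ch_ext (f := (mp H).comp (cone x)) (g := (cone (H x)).comp (mp H))
    (fun σ => by simp) c
  simpa using this

lemma bd_mp (H : V → W) (c : Ch V) : bd (mp H c) = mp H (bd c) := by
  have := ch_ext (f := bd.comp (mp H)) (g := (mp H).comp bd) (fun σ => by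
    simp only [AddMonoidHom.comp_apply, mp_of, bd_of]
    induction σ with
    | nil => simp [dl]
    | cons x σ ih => simp [dl_cons, mp_cone, ← ih]) c
  simpa using this

lemma mp_mp (H : V → W) (K : W → X) (c : Ch V) : mp K (mp H c) = mp (K ∘ H) c := by
  have := ch_ext (f := (mp K).comp (mp H)) (g := mp (K ∘ H)) (fun σ => by simp) c
  simpa using this

lemma mp_id' (H : V → V) (hH : ∀ x, H x = x) (c : Ch V) : mp H c = c := by
  have hH' : H = id := funext hH
  have := ch_ext (f := mp H) (g := AddMonoidHom.id _) (fun σ => by simp [hH']) c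
  simpa using this

/-- Prism of one tuple between two maps `A` and `B`. -/
def pl (A B : V → W) : List V → Ch W
  | [] => 0
  | x :: σ => of (A x :: B x :: σ.map B) - cone (A x) (pl A B σ)

/-- Prism operator between two maps `A` and `B`. -/
def prism (A B : V → W) : Ch V →+ Ch W := FreeAbelianGroup.lift (pl A B)

@[simp] lemma prism_of (A B : V → W) (σ : List V) : prism A B (of σ) = pl A B σ := by
  simp [prism, lift_apply_of]

lemma pl_cons (A B : V → W) (x : V) (σ : List V) :
    pl A B (x :: σ) = of (A x :: B x :: σ.map B) - cone (A x) (pl A B σ) := rfl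

lemma prism_cone (A B : V → W) (x : V) (c : Ch V) :
    prism A B (cone x c) = cone (A x) (cone (B x) (mp B c)) - cone (A x) (prism A B c) := by
  have := ch_ext (f := (prism A B).comp (cone x))
    (g := (cone (A x)).comp ((cone (B x)).comp (mp B)) - (cone (A x)).comp (prism A B))
    (fun σ => by simp [pl_cons]) c
  simpa using this

lemma bd_pl (A B : V → W) (σ : List V) :
    bd (pl A B σ) = of (σ.map B) - of (σ.map A) - prism A B (dl σ) := by
  induction σ with
  | nil => simp [pl, dl]
  | cons x σ ih =>
    have h1 : mp B (dl σ) = dl (σ.map B) := by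
      have := bd_mp B (of σ); simp at this; exact this.symm
    simp only [pl_cons, dl_cons, map_sub, bd_cone, ih, prism_cone, List.map_cons, bd_of,
      prism_of, cone_of, h1]
    abel

lemma bd_prism (A B : V → W) (c : Ch V) :
    bd (prism A B c) = mp B c - mp A c - prism A B (bd c) := by
  have := ch_ext (f := bd.comp (prism A B)) (g := mp B - mp A - (prism A B).comp bd)
    (fun σ => by simp [bd_pl]) c
  simpa using this

/-- Chains supported on the tuples in `S`. -/
def supp (S : Set (List V)) : AddSubgroup (Ch V) :=
  AddSubgroup.closure ((fun σ => (of σ : Ch V)) '' S)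

lemma of_mem_supp {S : Set (List V)} {σ : List V} (h : σ ∈ S) : (of σ : Ch V) ∈ supp S :=
  AddSubgroup.subset_closure ⟨σ, h, rfl⟩

lemma map_mem_of_supp {A : Type*} [AddCommGroup A] {S : Set (List V)} (f : Ch V →+ A)
    (K : AddSubgroup A) (h : ∀ σ ∈ S, f (of σ) ∈ K) {c : Ch V} (hc : c ∈ supp S) : f c ∈ K := by
  have : supp S ≤ K.comap f := by
    rw [supp, AddSubgroup.closure_le]
    rintro _ ⟨σ, hσ, rfl⟩
    exact h σ hσ
  exact this hc

lemma supp_mono {S T : Set (List V)} (h : S ⊆ T) : supp S ≤ supp T :=
  AddSubgroup.closure_mono (Set.image_mono h)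

end Pool.Agent.Lib.MP_28f43d_co
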