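import Mathlib
import Pool.Agent.Lib.MP_28f43d_co.Chain

/-!
The algebraic obstruction: an equivariant cocycle built from equivariant functions to `ZMod q`
cannot vanish on the top chain of a tower `c 0, c 1, ...` with
`∂ c (j+1) = (γ - 1) c j` for `j` even and `∂ c (j+1) = (1 + γ + ... + γ^(q-1)) c j` for `j` odd.
-/

set_option autoImplicit false

namespace Pool.Agent.Lib.MP_28f43d_co

open FreeAbelianGroup

lemma end_mul {M : Type*} [AddCommGroup M] (f g : AddMonoid.End M) (x : M) :
    (f * g) x = f (g x) := rfl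

lemma end_sum {M : Type*} [AddCommGroup M] {ι : Type*} (s : Finset ι) (f : ι → AddMonoid.End M)
    (x : M) : (∑ i ∈ s, f i) x = ∑ i ∈ s, f i x :=
  AddMonoidHom.finsetSum_apply (N := M) f s x

/-- An endomorphism seen as an additive map. -/
def toH {M : Type*} [AddCommGroup M] (g : AddMonoid.End M) : M →+ M where
  toFun x := g x
  map_zero' := by simp
  map_add' x y := by simp

@[simp] lemma toH_apply {M : Type*} [AddCommGroup M] (g : AddMonoid.End M) (x : M) :
    toH g x = g x := rfl

/-- `g - 1` for even `j`, and the norm element `1 + g + ... + g^(q-1)` for odd `j`. -/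
noncomputable def om {M : Type*} [AddCommGroup M] (q : ℕ) (g : AddMonoid.End M) (j : ℕ) :
    AddMonoid.End M :=
  if Even j then g - 1 else ∑ i ∈ Finset.range q, g ^ i

lemma om_add_two {M : Type*} [AddCommGroup M] (q : ℕ) (g : AddMonoid.End M) (j : ℕ) :
    om q g (j + 2) = om q g j := by
  unfold om
  have : Even (j + 2) ↔ Even j := by
    constructor
    · intro h; have := Nat.even_add.mp h; exact this.mpr (by decide)
    · intro h; exact h.add (by decide)
  simp [this]

lemma om_succ_om {M : Type*} [AddCommGroup M] (q : ℕ) (g : AddMonoid.End M) (hg : g ^ q = 1)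
    (j : ℕ) (x : M) : om q g (j + 1) (om q g j x) = 0 := by
  have h1 : om q g (j + 1) * om q g j = 0 := by
    unfold om
    by_cases h : Even j
    · have h' : ¬ Even (j + 1) := by rw [Nat.even_add_one]; simpa using h
      simp only [h, h', if_true, if_false]
      rw [geom_sum_mul, hg, sub_self]
    · have h' : Even (j + 1) := by rw [Nat.even_add_one]; exact h
      simp only [h, h', if_true, if_false]
      rw [mul_geom_sum, hg, sub_self]
  have := DFunLike.congr_fun h1 x
  simpa using this

lemma om_map {M M' : Type*} [AddCommGroup M] [AddCommGroup M'] (q : ℕ) (g : AddMonoid.End M)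
    (g' : AddMonoid.End M') (f : M →+ M') (h : ∀ x, f (g x) = g' (f x)) (j : ℕ) (x : M) :
    f (om q g j x) = om q g' j (f x) := by
  have hp : ∀ (i : ℕ) (x : M), f ((g ^ i) x) = (g' ^ i) (f x) := by
    intro i
    induction i with
    | zero => intro x; simp
    | succ i ih => intro x; rw [pow_succ, pow_succ]; rw [end_mul, end_mul, ih, h]
  unfold om
  split_ifs
  · have h1 : (g - 1) x = g x - x := rfl
    have h2 : (g' - 1) (f x) = g' (f x) - f x := rfl
    rw [h1, h2, map_sub, h]
  · rw [end_sum, end_sum, map_sum]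
    exact Finset.sum_congr rfl (fun i _ => hp i x)

section coind

variable {M : Type*} [AddCommGroup M] {q : ℕ}

/-- Sum of all values. -/
noncomputable def sumHom (M : Type*) [AddCommGroup M] (q : ℕ) [NeZero q] : (ZMod q → M) →+ M where
  toFun F := ∑ a, F a
  map_zero' := by simp
  map_add' F G := by simp [Finset.sum_add_distrib]

/-- The diagonal action on functions `ZMod q → M`. -/
def sh (q : ℕ) (g : AddMonoid.End M) : AddMonoid.End (ZMod q → M) where
  toFun F := fun a => g (F (a - 1))
  map_zero' := by ext; simp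
  map_add' F G := by ext; simp

lemma sh_apply (g : AddMonoid.End M) (F : ZMod q → M) (a : ZMod q) :
    sh q g F a = g (F (a - 1)) := rfl

lemma sh_pow_apply (g : AddMonoid.End M) (i : ℕ) (F : ZMod q → M) (a : ZMod q) :
    (sh q g ^ i) F a = (g ^ i) (F (a - i)) := by
  induction i generalizing F a with
  | zero => simp
  | succ i ih =>
    rw [pow_succ, pow_succ]
    rw [end_mul, end_mul, ih, sh_apply]
    congr 3
    push_cast
    ring

lemma sh_pow_q (g : AddMonoid.End M) (hg : g ^ q = 1) : sh q g ^ q = 1 := by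
  ext F a
  rw [sh_pow_apply, hg]
  simp

lemma sumHom_sh [NeZero q] (g : AddMonoid.End M) (F : ZMod q → M) :
    sumHom M q (sh q g F) = g (sumHom M q F) := by
  show ∑ a, g (F (a - 1)) = g (∑ a, F a)
  rw [map_sum]
  exact Fintype.sum_equiv (Equiv.subRight (1 : ZMod q)) _ _ (fun a => by simp)

lemma K1 [NeZero q] (g : AddMonoid.End M) (F : ZMod q → M)
    (h : (sh q g - 1) F = 0) : ∃ y, F = (∑ i ∈ Finset.range q, sh q g ^ i) y := by
  have h1 : ∀ a, F a = g (F (a - 1)) := by
    intro a
    have := congrFun h a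
    have h2 : sh q g F a - F a = 0 := this
    rw [sh_apply] at h2
    exact (sub_eq_zero.mp h2).symm
  have h2 : ∀ n : ℕ, F n = (g ^ n) (F 0) := by
    intro n
    induction n with
    | zero => simp
    | succ n ih =>
      rw [h1, pow_succ', end_mul, ← ih]
      congr 2
      push_cast
      ring
  refine ⟨Pi.single 0 (F 0), ?_⟩
  ext a
  rw [end_sum, Finset.sum_apply]
  simp only [sh_pow_apply]
  rw [Finset.sum_eq_single a.val]
  · have : a - (a.val : ZMod q) = 0 := by simp
    rw [this, Pi.single_eq_same, ← h2]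
    simp
  · intro b hb hba
    rw [Finset.mem_range] at hb
    have : a - (b : ZMod q) ≠ 0 := by
      intro h0
      apply hba
      have : a = (b : ZMod q) := sub_eq_zero.mp h0
      rw [this, ZMod.val_natCast, Nat.mod_eq_of_lt hb]
    rw [Pi.single_eq_of_ne this, map_zero]
  · intro h0
    exact absurd (Finset.mem_range.mpr (ZMod.val_lt a)) h0

lemma K2 (hq : 2 ≤ q) (g : AddMonoid.End M) (F : ZMod q → M)
    (h : (∑ i ∈ Finset.range q, sh q g ^ i) F = 0) : ∃ y, F = (sh q g - 1) y := by
  have : NeZero q := ⟨by omega⟩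
  have : Fact (1 < q) := ⟨by omega⟩
  let Y : ℕ → M := fun k => - ∑ i ∈ Finset.range k, (g ^ i) (F ((k - i : ℕ) : ZMod q))
  have hY0 : Y 0 = 0 := by simp [Y]
  have hYs : ∀ k, Y (k + 1) = g (Y k) - F ((k + 1 : ℕ) : ZMod q) := by
    intro k
    simp only [Y]
    rw [Finset.sum_range_succ']
    simp only [pow_zero, AddMonoid.End.one_apply, Nat.sub_zero, map_neg, map_sum]
    rw [neg_add, sub_eq_add_neg]
    congr 2
    apply Finset.sum_congr rfl
    intro i _
    rw [pow_succ', end_mul]
    congr 4
    omega
  refine ⟨fun a => Y a.val, ?_⟩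
  ext a
  show F a = g (Y (a - 1).val) - Y a.val
  by_cases ha : a = 0
  · subst ha
    have h1 : ((0 : ZMod q) - 1).val = q - 1 := by
      have : ((0 : ZMod q) - 1) = ((q - 1 : ℕ) : ZMod q) := by
        rw [Nat.cast_sub (by omega)]; simp
      rw [this, ZMod.val_natCast, Nat.mod_eq_of_lt (by omega)]
    rw [h1, ZMod.val_zero, hY0, sub_zero]
    have h2 := congrFun h 0
    rw [end_sum, Finset.sum_apply] at h2
    simp only [sh_pow_apply] at h2
    obtain ⟨r, hr⟩ : ∃ r, q = r + 1 := ⟨q - 1, by omega⟩
    have h3 : ∑ i ∈ Finset.range q, (g ^ i) (F (0 - (i : ZMod q)))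
        = ∑ i ∈ Finset.range (q - 1), (g ^ (i + 1)) (F (0 - ((i + 1 : ℕ) : ZMod q))) + F 0 := by
      have h30 : Finset.range q = Finset.range ((q - 1) + 1) := by congr 1; omega
      rw [h30, Finset.sum_range_succ']
      simp
    rw [h3] at h2
    have h4 : g (Y (q - 1)) = - ∑ i ∈ Finset.range (q - 1),
        (g ^ (i + 1)) (F (0 - ((i + 1 : ℕ) : ZMod q))) := by
      simp only [Y, map_neg, map_sum]
      congr 1
      apply Finset.sum_congr rfl
      intro i hi
      rw [Finset.mem_range] at hi
      rw [pow_succ', end_mul]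
      congr 3
      have h5 : q - 1 - i = q - (i + 1) := by omega
      rw [h5, Nat.cast_sub (by omega)]
      simp
    rw [h4]
    have h6 : (0 : ZMod q → M) 0 = 0 := rfl
    rw [h6] at h2
    exact (neg_eq_of_add_eq_zero_right h2).symm
  · have hval : a.val ≠ 0 := by
      intro h0; exact ha ((ZMod.val_eq_zero a).mp h0)
    obtain ⟨k, hk⟩ : ∃ k, a.val = k + 1 := ⟨a.val - 1, by omega⟩
    have hlt := ZMod.val_lt a
    have h1 : (a - 1).val = k := by
      have h2 : a = ((k + 1 : ℕ) : ZMod q) := by rw [← hk]; simp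
      have : a - 1 = (k : ZMod q) := by rw [h2]; push_cast; ring
      rw [this, ZMod.val_natCast, Nat.mod_eq_of_lt (by omega)]
    have h2 : ((k + 1 : ℕ) : ZMod q) = a := by rw [← hk]; simp
    rw [h1, hk, hYs, h2]
    abel

lemma exact_om (hq : 2 ≤ q) (g : AddMonoid.End M) (j : ℕ) (F : ZMod q → M)
    (h : om q (sh q g) j F = 0) : ∃ y, F = om q (sh q g) (j + 1) y := by
  have : NeZero q := ⟨by omega⟩
  unfold om at h ⊢
  by_cases hj : Even j
  · have h' : ¬ Even (j + 1) := by rw [Nat.even_add_one]; simpa using hj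
    rw [if_pos hj] at h
    rw [if_neg h']
    exact K1 g F h
  · have h' : Even (j + 1) := by rw [Nat.even_add_one]; exact hj
    rw [if_neg hj] at h
    rw [if_pos h']
    exact K2 hq g F h

end coind

/-- Consecutive points of the tuple are separated by the functions in the list. -/
def Sep {V : Type*} {q : ℕ} : List (V → ZMod q) → List V → Prop
  | [], _ => True
  | h :: hs, x :: y :: σ => h x ≠ h y ∧ Sep hs (y :: σ)
  | _ :: _, _ => True

lemma not_sep_of_const {V : Type*} {q : ℕ} (hs : List (V → ZMod q)) (σ : List V)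
    (hlen : hs.length + 1 ≤ σ.length) (h : V → ZMod q) (hh : h ∈ hs) (a : ZMod q)
    (hc : ∀ x ∈ σ, h x = a) : ¬ Sep hs σ := by
  induction hs generalizing σ with
  | nil => simp at hh
  | cons h' hs ih =>
    match σ, hlen with
    | [], hlen => simp at hlen
    | [x], hlen => simp at hlen
    | x :: y :: σ, hlen =>
      intro hsep
      rcases List.mem_cons.mp hh with rfl | hh'
      · apply hsep.1
        rw [hc x (by simp), hc y (by simp)]
      · refine ih (y :: σ) ?_ hh' ?_ hsep.2
        · simp at hlen ⊢; omega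
        · intro z hz; exact hc z (List.mem_cons_of_mem _ hz)

/-- Cup product of the function `h` (as a 0-cochain with values in the group ring) with `Ψ`. -/
noncomputable def cupf {V M : Type*} [AddCommGroup M] {q : ℕ} (h : V → ZMod q)
    (Ψ : Ch V →+ M) : Ch V →+ (ZMod q → M) :=
  FreeAbelianGroup.lift (fun σ => match σ with
    | [] => 0
    | x :: σ' => Pi.single (h x) (Ψ (of (x :: σ'))))

lemma cupf_cons {V M : Type*} [AddCommGroup M] {q : ℕ} (h : V → ZMod q)
    (Ψ : Ch V →+ M) (x : V) (σ : List V) :
    cupf h Ψ (of (x :: σ)) = Pi.single (h x) (Ψ (of (x :: σ))) := by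
  simp [cupf, lift_apply_of]

lemma cupf_nil {V M : Type*} [AddCommGroup M] {q : ℕ} (h : V → ZMod q)
    (Ψ : Ch V →+ M) : cupf h Ψ (of []) = 0 := by
  simp [cupf, lift_apply_of]

lemma cupf_cone {V M : Type*} [AddCommGroup M] {q : ℕ} (h : V → ZMod q)
    (Ψ : Ch V →+ M) (x : V) (c : Ch V) :
    cupf h Ψ (cone x c) = Pi.single (h x) (Ψ (cone x c)) := by
  have := ch_ext (f := (cupf h Ψ).comp (cone x))
    (g := (AddMonoidHom.single (fun _ => M) (h x)).comp (Ψ.comp (cone x)))
    (fun σ => by simp [cupf_cons]) c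
  simpa using this

theorem exists_cocycle {V : Type*} {q : ℕ} (hq : 2 ≤ q) (γ : V → V) (hs : List (V → ZMod q))
    (hh : ∀ h ∈ hs, ∀ x, h (γ x) = h x + 1) (c : ℕ → Ch V) (x0 : V) (hc0 : c 0 = of [x0])
    (hc : ∀ j < hs.length, bd (c (j + 1)) = om q (mp γ : AddMonoid.End (Ch V)) j (c j)) :
    ∃ (M : Type) (_ : AddCommGroup M) (g : AddMonoid.End M) (Ψ : Ch V →+ M),
      (∀ c, Ψ (mp γ c) = g (Ψ c)) ∧ Ψ (of []) = 0 ∧ (∀ c, Ψ (bd c) = 0) ∧
      (∀ σ, σ.length = hs.length + 1 → ¬ Sep hs σ → Ψ (of σ) = 0) ∧
      ¬ ∃ w, Ψ (c hs.length) = om q g (hs.length + 1) w := by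
  have : NeZero q := ⟨by omega⟩
  induction hs with
  | nil =>
    let Ψ : Ch V →+ ℤ := FreeAbelianGroup.lift (fun σ => if σ.length = 1 then 1 else 0)
    let ε : Ch V →+ ℤ := FreeAbelianGroup.lift (fun σ => if σ.length = 0 then 1 else 0)
    have hΨ : ∀ σ, Ψ (of σ) = if σ.length = 1 then 1 else 0 := fun σ => by
      simp [Ψ, lift_apply_of]
    have hε : ∀ σ, ε (of σ) = if σ.length = 0 then 1 else 0 := fun σ => by
      simp [ε, lift_apply_of]
    have hΨc : ∀ (x : V) (c : Ch V), Ψ (cone x c) = ε c := fun x c => by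
      have := ch_ext (f := Ψ.comp (cone x)) (g := ε) (fun σ => by simp [hΨ, hε]) c
      simpa using this
    have hεc : ∀ (x : V) (c : Ch V), ε (cone x c) = 0 := fun x c => by
      have := ch_ext (f := ε.comp (cone x)) (g := 0) (fun σ => by simp [hε]) c
      simpa using this
    have hεd : ∀ σ : List V, ε (dl σ) = Ψ (of σ) := by
      intro σ
      cases σ with
      | nil => simp [dl, hΨ]
      | cons x σ => rw [dl_cons, map_sub, hεc, hε, hΨ]; simp
    refine ⟨ℤ, inferInstance, 1, Ψ, ?_, ?_, ?_, ?_, ?_⟩
    · intro c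
      have := ch_ext (f := Ψ.comp (mp γ)) (g := Ψ) (fun σ => by simp [hΨ]) c
      simpa using this
    · simp [hΨ]
    · intro c
      have := ch_ext (f := Ψ.comp bd) (g := 0) (fun σ => by
        simp only [AddMonoidHom.comp_apply, bd_of, AddMonoidHom.zero_apply]
        cases σ with
        | nil => simp [dl]
        | cons x σ => rw [dl_cons, map_sub, hΨc, hεd, sub_self]) c
      simpa using this
    · intro σ _ h
      exact absurd trivial h
    · rintro ⟨w, hw⟩
      simp only [List.length_nil] at hw
      rw [hc0, hΨ] at hw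
      have h1 : om q (1 : AddMonoid.End ℤ) (0 + 1) w = q * w := by
        unfold om
        simp
      rw [h1] at hw
      simp only [List.length_singleton, if_true] at hw
      have : (q : ℤ) ∣ 1 := ⟨w, hw⟩
      have h2 := Int.le_of_dvd (by norm_num) this
      omega
  | cons h hs ih =>
    obtain ⟨M, _, g, Ψ, h1, h2, h3, h4, h5⟩ := ih (fun h' hh' => hh h' (List.mem_cons_of_mem _ hh'))
      (fun j hj => hc j (by simp; omega))
    have hsum : ∀ c, sumHom M q (cupf h Ψ c) = Ψ c := by
      intro c
      have := ch_ext (f := (sumHom M q).comp (cupf h Ψ)) (g := Ψ) (fun σ => by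
        cases σ with
        | nil => simp [cupf_nil, h2]
        | cons x σ =>
          simp only [AddMonoidHom.comp_apply, cupf_cons]
          show ∑ a, (Pi.single (h x) (Ψ (of (x :: σ))) : ZMod q → M) a = _
          rw [Finset.sum_pi_single']
          simp) c
      simpa using this
    have heq : ∀ c, cupf h Ψ (mp γ c) = sh q g (cupf h Ψ c) := by
      intro c
      have := ch_ext (f := (cupf h Ψ).comp (mp γ)) (g := (toH (sh q g)).comp (cupf h Ψ)) (fun σ => by
        rw [AddMonoidHom.comp_apply, AddMonoidHom.comp_apply, toH_apply]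
        cases σ with
        | nil => simp [cupf_nil]
        | cons x σ =>
          simp only [mp_of, List.map_cons, cupf_cons]
          have h6 : Ψ (of (γ x :: σ.map γ)) = g (Ψ (of (x :: σ))) := by
            have := h1 (of (x :: σ)); simpa using this
          rw [h6, hh h (by simp) x]
          ext a
          show _ = g ((Pi.single (h x) (Ψ (of (x :: σ))) : ZMod q → M) (a - 1))
          by_cases ha : a = h x + 1
          · subst ha; simp
          · have : a - 1 ≠ h x := fun h0 => ha (by rw [← h0]; ring)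
            rw [Pi.single_eq_of_ne ha, Pi.single_eq_of_ne this, map_zero]) c
      exact this
    let I : AddSubgroup (ZMod q → M) := (sumHom M q).ker
    have hgI : ∀ F : I, sh q g F ∈ I := by
      intro F
      show sumHom M q (sh q g F) = 0
      rw [sumHom_sh]
      have : sumHom M q (F : ZMod q → M) = 0 := F.2
      rw [this, map_zero]
    let g' : AddMonoid.End I :=
      AddMonoidHom.codRestrict ((toH (sh q g)).comp I.subtype) I hgI
    have hg' : ∀ F : I, ((g' F : I) : ZMod q → M) = sh q g (F : ZMod q → M) := fun F => rfl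
    let Ψ' : Ch V →+ I := AddMonoidHom.codRestrict ((cupf h Ψ).comp bd) I (fun c => by
      show sumHom M q (cupf h Ψ (bd c)) = 0
      rw [hsum, h3])
    have hΨ' : ∀ c, ((Ψ' c : I) : ZMod q → M) = cupf h Ψ (bd c) := fun c => rfl
    have hom : ∀ (j : ℕ) (w : I), ((om q g' j w : I) : ZMod q → M) = om q (sh q g) j (w : ZMod q → M) := by
      intro j w
      exact om_map q g' (sh q g) I.subtype (fun x => hg' x) j w
    refine ⟨I, inferInstance, g', Ψ', ?_, ?_, ?_, ?_, ?_⟩
    · intro c
      apply Subtype.ext
      rw [hg', hΨ', hΨ', bd_mp, heq]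
    · apply Subtype.ext
      rw [hΨ']
      simp [dl]
    · intro c
      apply Subtype.ext
      rw [hΨ', bd_bd]
      simp
    · intro σ hlen hsep
      match σ, hlen with
      | [], hlen => simp at hlen
      | [x], hlen => simp at hlen
      | x :: y :: σ, hlen =>
        apply Subtype.ext
        rw [hΨ', bd_of, dl_cons, map_sub, cupf_cone, cupf_cons]
        have h6 : Ψ (cone x (dl (y :: σ))) = Ψ (of (y :: σ)) := by
          have := h3 (of (x :: y :: σ))
          rw [bd_of, dl_cons, map_sub] at this
          exact (sub_eq_zero.mp this).symm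
        rw [h6]
        by_cases hxy : h x = h y
        · rw [hxy, sub_self]; rfl
        · have h7 : ¬ Sep hs (y :: σ) := fun h0 => hsep ⟨hxy, h0⟩
          rw [h4 (y :: σ) (by simpa using hlen) h7]
          simp
    · rintro ⟨w, hw⟩
      apply h5
      have h6 : (cupf h Ψ) (bd (c (hs.length + 1))) = om q (sh q g) hs.length (w : ZMod q → M) := by
        have := congrArg (fun z : I => (z : ZMod q → M)) hw
        simp only [List.length_cons] at this
        rw [hΨ', hom, om_add_two] at this
        exact this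
      rw [hc hs.length (by simp),
        om_map q (mp γ : AddMonoid.End (Ch V)) (sh q g) (cupf h Ψ) heq] at h6
      obtain ⟨y, hy⟩ := exact_om hq g hs.length (cupf h Ψ (c hs.length) - (w : ZMod q → M)) (by
        rw [map_sub, h6, sub_self])
      refine ⟨sumHom M q y, ?_⟩
      have h8 := congrArg (sumHom M q) hy
      rw [map_sub, hsum] at h8
      have h9 : sumHom M q (w : ZMod q → M) = 0 := w.2
      rw [h9, sub_zero] at h8
      rw [h8]
      exact om_map q (sh q g) g (sumHom M q) (fun x => sumHom_sh g x) _ y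

end Pool.Agent.Lib.MP_28f43d_co
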