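import Mathlib
import Pool.Agent.Lib.MP_28f43d_co.Tower

/-!
Filling a cycle by a chain of small tuples, moving it in small steps along segments towards
a cone point.
-/

set_option autoImplicit false

namespace Pool.Agent.Lib.MP_28f43d_co

open FreeAbelianGroup

/-- Tuples of `l` points of `Y` at mutual distance at most `δ`. -/
def small {V : Type*} [PseudoMetricSpace V] (Y : Set V) (δ : ℝ) (l : ℕ) : Set (List V) :=
  {σ | σ.length = l ∧ (∀ x ∈ σ, x ∈ Y) ∧ ∀ x ∈ σ, ∀ y ∈ σ, dist x y ≤ δ}

lemma pl_supp {V W : Type*} (A B : V → W) (σ : List V) :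
    pl A B σ ∈ supp {ρ : List W | ρ.length = σ.length + 1 ∧ ∀ z ∈ ρ, ∃ y ∈ σ, z = A y ∨ z = B y} := by
  induction σ with
  | nil => exact AddSubgroup.zero_mem _
  | cons x σ ih =>
    rw [pl_cons]
    apply AddSubgroup.sub_mem
    · apply of_mem_supp
      refine ⟨by simp, ?_⟩
      intro z hz
      simp only [List.mem_cons, List.mem_map] at hz
      rcases hz with rfl | rfl | ⟨y, hy, rfl⟩
      · exact ⟨x, by simp, Or.inl rfl⟩
      · exact ⟨x, by simp, Or.inr rfl⟩
      · exact ⟨y, List.mem_cons_of_mem _ hy, Or.inr rfl⟩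
    · refine map_mem_of_supp (cone (A x)) _ ?_ ih
      rintro ρ ⟨hρ1, hρ2⟩
      rw [cone_of]
      apply of_mem_supp
      refine ⟨by simp [hρ1], ?_⟩
      intro z hz
      rcases List.mem_cons.mp hz with rfl | hz
      · exact ⟨x, by simp, Or.inl rfl⟩
      · obtain ⟨y, hy, h⟩ := hρ2 z hz
        exact ⟨y, List.mem_cons_of_mem _ hy, h⟩

lemma prism_small {V W : Type*} [PseudoMetricSpace V] [PseudoMetricSpace W] (A B : V → W)
    (Y : Set V) (Y' : Set W) (δ δ' : ℝ) (l : ℕ)
    (h1 : ∀ x ∈ Y, A x ∈ Y' ∧ B x ∈ Y')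
    (h2 : ∀ x ∈ Y, ∀ y ∈ Y, dist x y ≤ δ →
      dist (A x) (A y) ≤ δ' ∧ dist (A x) (B y) ≤ δ' ∧ dist (B x) (B y) ≤ δ')
    {c : Ch V} (hc : c ∈ supp (small Y δ l)) : prism A B c ∈ supp (small Y' δ' (l + 1)) := by
  refine map_mem_of_supp (prism A B) _ ?_ hc
  rintro σ ⟨hσ1, hσ2, hσ3⟩
  rw [prism_of]
  refine supp_mono ?_ (pl_supp A B σ)
  rintro ρ ⟨hρ1, hρ2⟩
  refine ⟨by rw [hρ1, hσ1], ?_, ?_⟩
  · intro z hz
    obtain ⟨y, hy, rfl | rfl⟩ := hρ2 z hz
    · exact (h1 y (hσ2 y hy)).1
    · exact (h1 y (hσ2 y hy)).2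
  · intro z hz w hw
    obtain ⟨y, hy, hzy⟩ := hρ2 z hz
    obtain ⟨y', hy', hwy⟩ := hρ2 w hw
    have h3 := h2 y (hσ2 y hy) y' (hσ2 y' hy') (hσ3 y hy y' hy')
    have h4 := h2 y' (hσ2 y' hy') y (hσ2 y hy) (hσ3 y' hy' y hy)
    rcases hzy with rfl | rfl <;> rcases hwy with rfl | rfl
    · exact h3.1
    · exact h3.2.1
    · rw [dist_comm]; exact h4.2.1
    · exact h3.2.2

theorem fill {V : Type*} [NormedAddCommGroup V] [NormedSpace ℝ V] (Y Y' : Set V) (v : V)
    (hv : v ∈ Y') (δ : ℝ) (hδ : 0 ≤ δ) (M : ℕ) (hM : 0 < M)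
    (hseg : ∀ x ∈ Y, ∀ t : ℝ, 0 ≤ t → t ≤ 1 → AffineMap.lineMap x v t ∈ Y')
    (hd : ∀ x ∈ Y, dist x v ≤ 1) (l : ℕ) (z : Ch V) (hz : z ∈ supp (small Y δ l))
    (hbz : bd z = 0) : ∃ c ∈ supp (small Y' (δ + 1 / M) (l + 1)), bd c = z := by
  have hM' : (0 : ℝ) < M := by exact_mod_cast hM
  let H : ℕ → V → V := fun s x => AffineMap.lineMap x v ((s : ℝ) / M)
  refine ⟨cone v (mp (H M) z) - ∑ s ∈ Finset.range M, prism (H s) (H (s + 1)) z, ?_, ?_⟩
  · apply AddSubgroup.sub_mem
    · have := map_mem_of_supp ((cone v).comp (mp (H M))) (supp (small Y' (δ + 1 / M) (l + 1)))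
        (S := small Y δ l) ?_ hz
      · simpa using this
      · rintro σ ⟨hσ1, hσ2, hσ3⟩
        simp only [AddMonoidHom.comp_apply, mp_of, cone_of]
        have hHM : ∀ x, H M x = v := by
          intro x
          simp only [H]
          rw [div_self hM'.ne', AffineMap.lineMap_apply_one]
        have hall : ∀ x ∈ v :: σ.map (H M), x = v := by
          intro x hx
          rcases List.mem_cons.mp hx with rfl | hx
          · rfl
          · obtain ⟨y, _, rfl⟩ := List.mem_map.mp hx
            exact hHM y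
        apply of_mem_supp
        refine ⟨by simp [hσ1], ?_, ?_⟩
        · intro x hx; rw [hall x hx]; exact hv
        · intro x hx y hy
          rw [hall x hx, hall y hy, dist_self]
          positivity
    · apply AddSubgroup.sum_mem
      intro s hs
      rw [Finset.mem_range] at hs
      have hs0 : (0 : ℝ) ≤ (s : ℝ) / M := by positivity
      have hs1 : (s : ℝ) / M ≤ 1 := by
        rw [div_le_one hM']; exact_mod_cast hs.le
      have hs0' : (0 : ℝ) ≤ ((s + 1 : ℕ) : ℝ) / M := by positivity
      have hs1' : ((s + 1 : ℕ) : ℝ) / M ≤ 1 := by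
        rw [div_le_one hM']; exact_mod_cast hs
      have hcontr : ∀ (x y : V) (t : ℝ), 0 ≤ t → t ≤ 1 →
          dist (AffineMap.lineMap x v t : V) (AffineMap.lineMap y v t) ≤ dist x y := by
        intro x y t ht0 ht1
        simp only [AffineMap.lineMap_apply_module, dist_eq_norm]
        have : (1 - t) • x + t • v - ((1 - t) • y + t • v) = (1 - t) • (x - y) := by
          rw [smul_sub]; abel
        rw [this, norm_smul, Real.norm_eq_abs, abs_of_nonneg (by linarith)]
        have := norm_nonneg (x - y)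
        nlinarith
      refine prism_small (H s) (H (s + 1)) Y Y' δ _ l ?_ ?_ hz
      · intro x hx
        exact ⟨hseg x hx _ hs0 hs1, hseg x hx _ hs0' hs1'⟩
      · intro x hx y hy hxy
        refine ⟨?_, ?_, ?_⟩
        · calc dist (H s x) (H s y) ≤ dist x y := hcontr x y _ hs0 hs1
            _ ≤ δ + 1 / M := by have : (0 : ℝ) ≤ 1 / M := by positivity
                                linarith
        · calc dist (H s x) (H (s + 1) y) ≤ dist (H s x) (H (s + 1) x)
                + dist (H (s + 1) x) (H (s + 1) y) := dist_triangle _ _ _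
            _ ≤ 1 / M + δ := by
                apply add_le_add
                · simp only [H]
                  rw [dist_lineMap_lineMap, Real.dist_eq]
                  have h1 : |(s : ℝ) / M - ((s + 1 : ℕ) : ℝ) / M| = 1 / M := by
                    rw [← sub_div]
                    push_cast
                    rw [show (s : ℝ) - (s + 1) = -1 by ring, neg_div, abs_neg,
                      abs_of_nonneg (by positivity)]
                  rw [h1]
                  have := hd x hx
                  have h2 : (0 : ℝ) ≤ 1 / M := by positivity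
                  nlinarith
                · exact (hcontr x y _ hs0' hs1').trans hxy
            _ = δ + 1 / M := by ring
        · calc dist (H (s + 1) x) (H (s + 1) y) ≤ dist x y := hcontr x y _ hs0' hs1'
            _ ≤ δ + 1 / M := by have : (0 : ℝ) ≤ 1 / M := by positivity
                                linarith
  · rw [map_sub, bd_cone, bd_mp, hbz, map_zero, map_zero, sub_zero, map_sum]
    have h1 : ∀ s, bd (prism (H s) (H (s + 1)) z) = mp (H (s + 1)) z - mp (H s) z := by
      intro s
      rw [bd_prism, hbz, map_zero, sub_zero]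
    simp only [h1]
    rw [Finset.sum_range_sub (fun s => mp (H s) z)]
    have h2 : mp (H 0) z = z := by
      apply mp_id'
      intro x
      simp [H]
    rw [h2]
    abel

end Pool.Agent.Lib.MP_28f43d_co
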