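import Mathlib
import Pool.Agent.Lib.MP_28f43d_co.Defs
import Pool.Agent.Lib.MP_28f43d_co.Fill

/-!
The lower bound for the mapping index: a poset whose realisation carries arbitrarily fine towers of
chains of length `m` has no equivariant map to `E_k G` with `k < m`.
-/

set_option autoImplicit false

namespace Pool.Agent.Lib.MP_28f43d_co

open FreeAbelianGroup

/-- Restricted naturality of `om`. -/
lemma om_map_on {M M' : Type*} [AddCommGroup M] [AddCommGroup M'] (q : ℕ) (S : AddSubgroup M)
    (g : AddMonoid.End M) (hgS : ∀ x ∈ S, g x ∈ S) (g' : AddMonoid.End M') (f : M →+ M')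
    (h : ∀ x ∈ S, f (g x) = g' (f x)) (j : ℕ) (x : M) (hx : x ∈ S) :
    om q g j x ∈ S ∧ f (om q g j x) = om q g' j (f x) := by
  let gS : AddMonoid.End S := AddMonoidHom.codRestrict ((toH g).comp S.subtype) S
    (fun x => hgS x x.2)
  have h1 : S.subtype (om q gS j ⟨x, hx⟩) = om q g j x :=
    om_map q gS g S.subtype (fun x => rfl) j ⟨x, hx⟩
  have h2 : (f.comp S.subtype) (om q gS j ⟨x, hx⟩) = om q g' j (f x) :=
    om_map q gS g' (f.comp S.subtype) (fun x => h x x.2) j ⟨x, hx⟩
  constructor
  · rw [← h1]; exact (om q gS j ⟨x, hx⟩).2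
  · rw [← h2, ← h1]; rfl

/-- A free action admits an equivariant map to the group. -/
lemma exists_equivariant {H X : Type*} [Group H] [MulAction H X]
    (hfree : ∀ (g : H) (x : X), g • x = x → g = 1) : ∃ h : X → H, ∀ g x, h (g • x) = g * h x := by
  classical
  let r : X → X := fun x => (Quotient.out (Quotient.mk (MulAction.orbitRel H X) x) : X)
  have hr : ∀ x, ∃ g : H, g • r x = x := by
    intro x
    have h1 : (MulAction.orbitRel H X).r (r x) x := Quotient.exact (Quotient.out_eq _)
    have h2 : r x ∈ MulAction.orbit H x := h1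
    obtain ⟨g, hg⟩ := h2
    refine ⟨g⁻¹, ?_⟩
    rw [← hg]
    simp
  have hr2 : ∀ (g : H) (x : X), r (g • x) = r x := by
    intro g x
    have : (Quotient.mk (MulAction.orbitRel H X) (g • x)) = Quotient.mk (MulAction.orbitRel H X) x :=
      Quotient.sound (show g • x ∈ MulAction.orbit H x from ⟨g, rfl⟩)
    show Quotient.out _ = Quotient.out _
    rw [this]
  choose h hh using hr
  refine ⟨h, fun g x => ?_⟩
  have h1 := hh (g • x)
  rw [hr2] at h1
  have h2 : (g * h x) • r x = g • x := by rw [mul_smul, hh x]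
  have h3 : ((g * h x)⁻¹ * h (g • x)) • r x = r x := by
    rw [mul_smul, h1, ← h2, inv_smul_smul]
  have h4 := hfree _ _ h3
  rw [inv_mul_eq_one] at h4
  exact h4.symm

/-- An equivariant map from `G` to `ZMod q`, for an element of order `q`. -/
lemma exists_kappa {G : Type*} [Group G] (γ : G) :
    ∃ κ : G → ZMod (orderOf γ), ∀ g, κ (γ * g) = κ g + 1 := by
  obtain ⟨h, hh⟩ := exists_equivariant (H := Subgroup.zpowers γ) (X := G) (by
    rintro ⟨z, hz⟩ x hx
    have : z * x = x := hx
    have h1 : z = 1 := by simpa using this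
    exact Subtype.ext h1)
  have h1 : ∀ z : Subgroup.zpowers γ, ∃ k : ℤ, γ ^ k = (z : G) := fun z =>
    Subgroup.mem_zpowers_iff.mp z.2
  choose k hk using h1
  refine ⟨fun g => ((k (h g) : ℤ) : ZMod (orderOf γ)), fun g => ?_⟩
  have h2 := hh ⟨γ, Subgroup.mem_zpowers γ⟩ g
  have h3 : h (γ * g) = ⟨γ, Subgroup.mem_zpowers γ⟩ * h g := h2
  have h4 : γ ^ (k (h (γ * g))) = γ ^ (k (h g) + 1) := by
    rw [hk, h3, zpow_add, hk, zpow_one]
    show γ * (h g : G) = (h g : G) * γ
    rw [← hk (h g)]
    exact (Commute.self_zpow γ _)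
  have h5 := zpow_eq_zpow_iff_modEq.mp h4
  have h6 := (ZMod.intCast_eq_intCast_iff _ _ _).mpr h5
  push_cast at h6
  exact h6

/-- The action on functions by permuting coordinates. -/
def act {G P : Type*} [Group G] [MulAction G P] (g : G) (t : P → ℝ) : P → ℝ :=
  fun p => t (g⁻¹ • p)

/-- Arbitrarily fine towers of chains `c 0, ..., c m` in the realisation of `P`. -/
def Low (G P : Type*) [Group G] [Fintype P] [PartialOrder P] [MulAction G P] (m : ℕ) : Prop :=
  ∃ γ : G, γ ≠ 1 ∧ ∀ δ : ℝ, 0 < δ → ∃ c : ℕ → Ch (P → ℝ), (∃ x0, c 0 = of [x0]) ∧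
    (∀ j < m, bd (c (j + 1)) = om (orderOf γ) (mp (act γ) : AddMonoid.End (Ch (P → ℝ))) j (c j)) ∧
    ∀ j ≤ m, c j ∈ supp (small (realSet P) δ (j + 1))

section

variable {G P : Type*} [Group G] [Fintype P] [PartialOrder P] [MulAction G P] [GPoset G P]

lemma act_mem (g : G) {t : P → ℝ} (ht : t ∈ realSet P) : act g t ∈ realSet P :=
  (g • (⟨t, ht⟩ : Realization P)).2

lemma realSet_isCompact : IsCompact (realSet P) := by
  have h1 : IsClosed (realSet P) := by
    have : realSet P = (⋂ p, {t : P → ℝ | 0 ≤ t p}) ∩ ({t : P → ℝ | ∑ p, t p = 1} ∩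
        ⋂ p, ⋂ q, {t : P → ℝ | (p ≤ q ∨ q ≤ p) ∨ t p * t q = 0}) := by
      ext t
      simp only [realSet, Set.mem_ofPred_eq, Set.mem_inter_iff, Set.mem_iInter]
      refine and_congr Iff.rfl (and_congr Iff.rfl ?_)
      constructor
      · intro h p q
        by_cases hp : t p = 0
        · right; rw [hp, zero_mul]
        · by_cases hq : t q = 0
          · right; rw [hq, mul_zero]
          · left; exact h p q hp hq
      · intro h p q hp hq
        rcases h p q with h | h
        · exact h
        · exact absurd h (mul_ne_zero hp hq)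
    rw [this]
    refine IsClosed.inter ?_ (IsClosed.inter ?_ ?_)
    · exact isClosed_iInter (fun p => isClosed_le continuous_const (continuous_apply p))
    · exact isClosed_eq (continuous_finsetSum _ (fun p _ => continuous_apply p)) continuous_const
    · refine isClosed_iInter (fun p => isClosed_iInter (fun q => ?_))
      by_cases h : p ≤ q ∨ q ≤ p
      · simp [h]
      · simp only [h, false_or]
        exact isClosed_eq ((continuous_apply p).mul (continuous_apply q)) continuous_const
  have h2 : realSet P ⊆ Set.Icc 0 1 := by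
    rintro t ⟨ht1, ht2, _⟩
    refine ⟨ht1, fun p => ?_⟩
    show t p ≤ 1
    rw [← ht2]
    exact Finset.single_le_sum (fun q _ => ht1 q) (Finset.mem_univ p)
  exact IsCompact.of_isClosed_subset isCompact_Icc h1 h2

/-- The action on the realisation is free if the action on the poset is. -/
lemma real_free [Finite G] (hfree : ∀ (g : G) (p : P), g • p = p → g = 1) (g : G)
    (x : Realization P) (hx : g • x = x) : g = 1 := by
  have h1 : ∃ p, x.1 p ≠ 0 := by
    by_contra h
    push Not at h
    have := x.2.2.1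
    simp [h] at this
  obtain ⟨p, hp⟩ := h1
  have h2 : ∀ q, x.1 (g⁻¹ • q) = x.1 q := fun q => congrFun (congrArg Subtype.val hx) q
  have h3 : x.1 (g • p) ≠ 0 := by
    have := h2 (g • p)
    rw [inv_smul_smul] at this
    rwa [← this]
  have h4 : ∀ (g : G) (p : P), p ≤ g • p → g • p = p := by
    intro g p h
    have h5 : ∀ n : ℕ, g • p ≤ g ^ (n + 1) • p := by
      intro n
      induction n with
      | zero => simp
      | succ n ih =>
        have h6 := GPoset.smul_le (g ^ (n + 1)) _ _ h
        rw [← mul_smul, ← pow_succ] at h6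
        exact ih.trans h6
    obtain ⟨n, hn⟩ : ∃ n, orderOf g = n + 1 := ⟨orderOf g - 1, by
      have := orderOf_pos g; omega⟩
    have h7 := h5 n
    rw [← hn, pow_orderOf_eq_one, one_smul] at h7
    exact le_antisymm h7 h
  rcases x.2.2.2 p (g • p) hp h3 with h | h
  · exact hfree g p (h4 g p h)
  · have h5 : p ≤ g⁻¹ • p := by
      have := GPoset.smul_le g⁻¹ _ _ h
      simpa using this
    have h6 := h4 g⁻¹ p h5
    have h7 := hfree g⁻¹ p h6
    exact inv_eq_one.mp h7

theorem not_mem_indSet_of_low [Fintype G] (hfree : ∀ (g : G) (p : P), g • p = p → g = 1) (m : ℕ)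
    (hlow : Low G P m) (k : ℕ) (hk : k < m) : k ∉ indSet G (Realization P) := by
  classical
  rintro ⟨f, hfc, hfe⟩
  obtain ⟨γ, hγ, hlow⟩ := hlow
  have hq : 2 ≤ orderOf γ := by
    have h1 := orderOf_pos γ
    have h2 : orderOf γ ≠ 1 := fun h => hγ (orderOf_eq_one_iff.mp h)
    omega
  set q := orderOf γ with hqdef
  obtain ⟨κ, hκ⟩ := exists_kappa γ
  obtain ⟨h', hh'⟩ := exists_equivariant (H := G) (X := Realization P) (real_free hfree)
  -- the equivariant functions
  let hG : Fin (k + 1) → Realization P → G := fun i x =>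
    if h : ∃ g, (f x).1 (g, i) ≠ 0 then Classical.choose h else h' x
  have hG1 : ∀ i x g, (f x).1 (g, i) ≠ 0 → hG i x = g := by
    intro i x g hg
    have h : ∃ g, (f x).1 (g, i) ≠ 0 := ⟨g, hg⟩
    simp only [hG, dif_pos h]
    exact (f x).2.2.2 i _ _ (Classical.choose_spec h) hg
  have hf : ∀ (g : G) (x : Realization P) (a : G) (i : Fin (k + 1)),
      (f (g • x)).1 (g * a, i) = (f x).1 (a, i) := by
    intro g x a i
    rw [hfe]
    show (f x).1 (g⁻¹ * (g * a), i) = _
    rw [inv_mul_cancel_left]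
  have hG2 : ∀ i x, hG i (γ • x) = γ * hG i x := by
    intro i x
    by_cases h : ∃ g, (f x).1 (g, i) ≠ 0
    · obtain ⟨g, hg⟩ := h
      rw [hG1 i x g hg]
      apply hG1
      rw [hf]
      exact hg
    · have h2 : ¬ ∃ g, (f (γ • x)).1 (g, i) ≠ 0 := by
        rintro ⟨g, hg⟩
        apply h
        refine ⟨γ⁻¹ * g, ?_⟩
        rw [← hf γ x (γ⁻¹ * g) i, mul_inv_cancel_left]
        exact hg
      simp only [hG, dif_neg h, dif_neg h2]
      exact hh' γ x
  let hs : List (Realization P → ZMod q) := List.ofFn (fun i x => κ (hG i x))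
  have hslen : hs.length = k + 1 := by simp [hs]
  have hhs : ∀ h ∈ hs, ∀ x, h (γ • x) = h x + 1 := by
    intro h hh x
    obtain ⟨i, rfl⟩ := (List.mem_ofFn' _ _).mp hh
    show κ (hG i (γ • x)) = κ (hG i x) + 1
    rw [hG2, hκ]
  -- uniform continuity
  have : CompactSpace (Realization P) := isCompact_iff_compactSpace.mp realSet_isCompact
  have huc : UniformContinuous f := CompactSpace.uniformContinuous_of_continuous hfc
  rw [Metric.uniformContinuous_iff] at huc
  have hcard : (0 : ℝ) < Fintype.card (G × Fin (k + 1)) := by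
    have : 0 < Fintype.card (G × Fin (k + 1)) := Fintype.card_pos_iff.mpr ⟨(1, 0)⟩
    exact_mod_cast this
  obtain ⟨δ, hδ, hδ'⟩ := huc (1 / Fintype.card (G × Fin (k + 1))) (by positivity)
  obtain ⟨c, ⟨x0, hc0⟩, hc1, hc2⟩ := hlow (δ / 2) (by positivity)
  have hx0 : x0 ∈ realSet P := by
    -- the support of a single tuple
    by_contra hx0
    have h1 := hc2 0 (Nat.zero_le _)
    rw [hc0] at h1
    let Ψ : Ch (P → ℝ) →+ ℤ := FreeAbelianGroup.lift (fun σ => if σ = [x0] then 1 else 0)
    have h2 : Ψ (of [x0]) ∈ (⊥ : AddSubgroup ℤ) := by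
      refine map_mem_of_supp Ψ ⊥ ?_ h1
      rintro σ ⟨_, hσ, _⟩
      have : σ ≠ [x0] := by
        rintro rfl
        exact hx0 (hσ x0 (by simp))
      simp [Ψ, lift_apply_of, this]
    simp [Ψ, lift_apply_of] at h2
  -- transport to the subtype
  let r : (P → ℝ) → Realization P := fun t => if h : t ∈ realSet P then ⟨t, h⟩ else ⟨x0, hx0⟩
  have hr : ∀ t (h : t ∈ realSet P), r t = ⟨t, h⟩ := fun t h => dif_pos h
  let S : AddSubgroup (Ch (P → ℝ)) := supp {σ | ∀ x ∈ σ, x ∈ realSet P}
  have hS1 : ∀ x ∈ S, (mp (act γ) : AddMonoid.End (Ch (P → ℝ))) x ∈ S := by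
    intro x hx
    refine map_mem_of_supp (mp (act γ)) S ?_ hx
    intro σ hσ
    rw [mp_of]
    apply of_mem_supp
    intro y hy
    obtain ⟨z, hz, rfl⟩ := List.mem_map.mp hy
    exact act_mem γ (hσ z hz)
  let gX : Realization P → Realization P := fun x => γ • x
  have hS2 : ∀ x ∈ S, mp r ((mp (act γ) : AddMonoid.End (Ch (P → ℝ))) x)
      = (mp gX : AddMonoid.End (Ch (Realization P))) (mp r x) := by
    intro x hx
    have h1 : ((mp r).comp (mp (act γ)) - (mp gX).comp (mp r)) x ∈
        (⊥ : AddSubgroup (Ch (Realization P))) := by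
      refine map_mem_of_supp _ ⊥ ?_ hx
      intro σ hσ
      simp only [AddMonoidHom.sub_apply, AddMonoidHom.comp_apply, mp_of, List.map_map,
        AddSubgroup.mem_bot]
      rw [sub_eq_zero]
      congr 1
      apply List.map_congr_left
      intro y hy
      have hy' := hσ y hy
      simp only [Function.comp_apply, hr y hy', hr _ (act_mem γ hy')]
      rfl
    have h2 : mp r (mp (act γ) x) - mp gX (mp r x) = 0 := by simpa using h1
    exact sub_eq_zero.mp h2
  have hcS : ∀ j ≤ m, c j ∈ S := by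
    intro j hj
    refine supp_mono ?_ (hc2 j hj)
    rintro σ ⟨_, h, _⟩
    exact h
  have hc' : ∀ j < hs.length, bd (mp r (c (j + 1)))
      = om q (mp gX : AddMonoid.End (Ch (Realization P))) j (mp r (c j)) := by
    intro j hj
    rw [hslen] at hj
    rw [bd_mp, hc1 j (by omega)]
    exact (om_map_on q S _ hS1 _ (mp r) hS2 j (c j) (hcS j (by omega))).2
  obtain ⟨M, _, g, Ψ, _, _, _, h4, h5⟩ := exists_cocycle hq gX hs hhs
    (fun j => mp r (c j)) (r x0) (by simp [hc0]) hc'
  apply h5
  refine ⟨0, ?_⟩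
  rw [map_zero, hslen]
  have h6 : (Ψ.comp (mp r)) (c (k + 1)) ∈ (⊥ : AddSubgroup M) := by
    refine map_mem_of_supp _ ⊥ ?_ (hc2 (k + 1) (by omega))
    rintro σ ⟨hσ1, hσ2, hσ3⟩
    rw [AddMonoidHom.comp_apply, mp_of, AddSubgroup.mem_bot]
    apply h4
    · simp [hσ1, hslen]
    · -- find a constant function
      match σ, hσ1 with
      | [], h => simp at h
      | y :: σ', hlen =>
        set σ := y :: σ' with hσdef
        have hy : y ∈ realSet P := hσ2 y (by simp [hσdef])
        have h7 : ∃ v : G × Fin (k + 1), 1 / (Fintype.card (G × Fin (k + 1)) : ℝ)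
            ≤ (f ⟨y, hy⟩).1 v := by
          by_contra hcon
          push Not at hcon
          have h8 := (f ⟨y, hy⟩).2.2.1
          have h9 : ∑ v : G × Fin (k + 1), (f ⟨y, hy⟩).1 v
              < ∑ v : G × Fin (k + 1), 1 / (Fintype.card (G × Fin (k + 1)) : ℝ) :=
            Finset.sum_lt_sum_of_nonempty ⟨(1, 0), Finset.mem_univ _⟩ (fun v _ => hcon v)
          rw [h8, Finset.sum_const, nsmul_eq_mul, Finset.card_univ] at h9
          rw [mul_one_div_cancel hcard.ne'] at h9
          exact lt_irrefl _ h9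
        obtain ⟨⟨a, i⟩, hv⟩ := h7
        refine not_sep_of_const hs (σ.map r) ?_ (fun x => κ (hG i x)) ?_ (κ a) ?_
        · simp [hslen, hσdef] at hlen ⊢; omega
        · exact (List.mem_ofFn' _ _).mpr ⟨i, rfl⟩
        · intro x hx
          obtain ⟨z, hz, rfl⟩ := List.mem_map.mp hx
          have hz' := hσ2 z hz
          rw [hr z hz']
          show κ (hG i ⟨z, hz'⟩) = κ a
          congr 1
          apply hG1
          have h10 : dist (⟨z, hz'⟩ : Realization P) ⟨y, hy⟩ < δ := by
            have : dist z y ≤ δ / 2 := hσ3 z hz y (by simp [hσdef])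
            have h11 : dist (⟨z, hz'⟩ : Realization P) ⟨y, hy⟩ = dist z y := rfl
            rw [h11]; linarith
          have h12 := hδ' h10
          have h13 : dist ((f ⟨z, hz'⟩).1 (a, i)) ((f ⟨y, hy⟩).1 (a, i))
              ≤ dist (f ⟨z, hz'⟩) (f ⟨y, hy⟩) :=
            dist_le_pi_dist (f ⟨z, hz'⟩).1 (f ⟨y, hy⟩).1 (a, i)
          rw [Real.dist_eq] at h13
          have h14 := abs_lt.mp (lt_of_le_of_lt h13 h12)
          intro h0
          rw [h0] at h14
          linarith [h14.1]
  simpa using h6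

end

end Pool.Agent.Lib.MP_28f43d_co
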