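import Mathlib
import Pool.Agent.Lib.MP_28f43d_co.Lower

/-!
Adding a copy of `G` on top of a `G`-poset raises both indices by one.
-/

set_option autoImplicit false

namespace Pool.Agent.Lib.MP_28f43d_co

open FreeAbelianGroup

universe u

/-- Points of the cone over the realisation: nonnegative weights on a chain. -/
def coneSet (P : Type*) [PartialOrder P] : Set (P → ℝ) :=
  {t | (∀ p, 0 ≤ t p) ∧ ∀ p q, t p ≠ 0 → t q ≠ 0 → p ≤ q ∨ q ≤ p}

/-- A continuous equivariant map to the cone over `E_j G`, not vanishing off the apex. -/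
def Up (G P : Type*) [Group G] [PartialOrder P] [MulAction G P] (j : ℕ) : Prop :=
  ∃ F : (P → ℝ) → (G × Fin (j + 1) → ℝ), Continuous F ∧
    (∀ (g : G) t a i, F (act g t) (g * a, i) = F t (a, i)) ∧ (∀ t v, 0 ≤ F t v) ∧
    (∀ t ∈ coneSet P, ∀ (i : Fin (j + 1)) (g h : G), F t (g, i) ≠ 0 → F t (h, i) ≠ 0 → g = h) ∧
    ∀ t ∈ coneSet P, t ≠ 0 → F t ≠ 0

/-- Every equivariant monotone map to `G × ℕ` reaches level `n`. -/
def XLow (G P : Type*) [Group G] [PartialOrder P] [MulAction G P] (n : ℕ) : Prop :=
  ∀ f : P → G × ℕ, (∀ (g : G) p, f (g • p) = (g * (f p).1, (f p).2)) →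
    (∀ p q, p ≤ q → f p = f q ∨ (f p).2 < (f q).2) → ∃ x, n ≤ (f x).2

lemma mem_indSet_of_up {G P : Type*} [Group G] [Fintype G] [Fintype P] [PartialOrder P]
    [MulAction G P] [GPoset G P] (j : ℕ) (h : Up G P j) : j ∈ indSet G (Realization P) := by
  obtain ⟨F, hF, he, h0, h1, h2⟩ := h
  have hcone : ∀ x : Realization P, x.1 ∈ coneSet P := fun x => ⟨x.2.1, x.2.2.2⟩
  have hne : ∀ x : Realization P, x.1 ≠ 0 := by
    intro x hx
    have := x.2.2.1
    rw [hx] at this
    simp at this
  have hpos : ∀ x : Realization P, 0 < ∑ v, F x.1 v := by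
    intro x
    have h3 := h2 x.1 (hcone x) (hne x)
    obtain ⟨v, hv⟩ : ∃ v, F x.1 v ≠ 0 := by
      by_contra hcon
      push Not at hcon
      exact h3 (funext hcon)
    exact Finset.sum_pos' (fun v _ => h0 _ v) ⟨v, Finset.mem_univ _, lt_of_le_of_ne (h0 _ v) hv.symm⟩
  have hsmul : ∀ (g : G) (x : Realization P) (v : G × Fin (j + 1)),
      F (g • x).1 v = F x.1 (g⁻¹ * v.1, v.2) := by
    intro g x v
    have := he g x.1 (g⁻¹ * v.1) v.2
    rw [mul_inv_cancel_left] at this
    exact this
  refine ⟨fun x => ⟨fun v => F x.1 v / ∑ w, F x.1 w, ?_, ?_, ?_⟩, ?_, ?_⟩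
  · intro v; exact div_nonneg (h0 _ _) (hpos x).le
  · rw [← Finset.sum_div, div_self (hpos x).ne']
  · intro i g h hg hh
    exact h1 x.1 (hcone x) i g h (fun h3 => hg (by show F x.1 (g, i) / _ = 0; rw [h3, zero_div]))
      (fun h3 => hh (by show F x.1 (h, i) / _ = 0; rw [h3, zero_div]))
  · refine Continuous.subtype_mk ?_ _
    refine continuous_pi (fun v => ?_)
    have h3 : Continuous (fun x : Realization P => F x.1) := hF.comp continuous_subtype_val
    have h4 : ∀ v, Continuous (fun x : Realization P => F x.1 v) := fun v =>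
      (continuous_apply v).comp h3
    exact (h4 v).div (continuous_finsetSum _ (fun w _ => h4 w)) (fun x => (hpos x).ne')
  · intro g x
    apply Subtype.ext
    funext v
    show F (g • x).1 v / ∑ w, F (g • x).1 w = F x.1 (g⁻¹ * v.1, v.2) / ∑ w, F x.1 w
    rw [hsmul]
    congr 1
    have h3 : ∀ w, F (g • x).1 w = F x.1 (g⁻¹ * w.1, w.2) := hsmul g x
    simp only [h3]
    exact Fintype.sum_equiv (Equiv.prodCongr (Equiv.mulLeft g⁻¹) (Equiv.refl _)) _ _
      (fun v => rfl)

lemma not_mem_xindSet_of_xlow {G P : Type*} [Group G] [PartialOrder P] [MulAction G P] (n : ℕ)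
    (h : XLow G P n) (k : ℕ) (hk : k < n) : k ∉ xindSet G P := by
  rintro ⟨f, hf1, hf2⟩
  obtain ⟨x, hx⟩ := h (fun p => ((f p).1, ((f p).2 : ℕ))) (by
    intro g p
    show ((f (g • p)).1, ((f (g • p)).2 : ℕ)) = _
    rw [hf2]
    rfl) (by
    intro p q hpq
    rcases hf1 hpq with h1 | h1
    · left; rw [h1]
    · right; exact h1)
  have h1 : ((f x).2 : ℕ) < k + 1 := (f x).2.isLt
  have h2 : n ≤ ((f x).2 : ℕ) := hx
  omega

/-- The poset `P` with a copy of `G` added on top. -/
inductive Susp (P G : Type u) : Type u
  | base : P → Susp P G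
  | top : G → Susp P G

namespace Susp

variable {P G : Type u}

/-- The order of `Susp P G`. -/
def le [PartialOrder P] : Susp P G → Susp P G → Prop
  | base p, base q => p ≤ q
  | base _, top _ => True
  | top _, base _ => False
  | top g, top h => g = h

instance [PartialOrder P] : PartialOrder (Susp P G) where
  le := Susp.le
  le_refl a := by cases a <;> simp [Susp.le]
  le_trans a b c hab hbc := by
    cases a <;> cases b <;> cases c <;> simp_all [Susp.le]
    exact hab.trans hbc
  le_antisymm a b hab hba := by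
    cases a <;> cases b <;> simp_all [Susp.le]
    exact le_antisymm hab hba

@[simp] lemma base_le_base [PartialOrder P] (p q : P) :
    (base p : Susp P G) ≤ base q ↔ p ≤ q := Iff.rfl

@[simp] lemma base_le_top [PartialOrder P] (p : P) (g : G) :
    (base p : Susp P G) ≤ top g ↔ True := Iff.rfl

@[simp] lemma top_le_base [PartialOrder P] (p : P) (g : G) :
    (top g : Susp P G) ≤ base p ↔ False := Iff.rfl

@[simp] lemma top_le_top [PartialOrder P] (g h : G) :
    (top g : Susp P G) ≤ top h ↔ g = h := Iff.rfl

/-- `Susp P G` as a sum type. -/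
def equiv : Susp P G ≃ P ⊕ G where
  toFun x := match x with
    | base p => Sum.inl p
    | top g => Sum.inr g
  invFun x := match x with
    | Sum.inl p => base p
    | Sum.inr g => top g
  left_inv x := by cases x <;> rfl
  right_inv x := by cases x <;> rfl

instance [Fintype P] [Fintype G] : Fintype (Susp P G) := Fintype.ofEquiv _ equiv.symm

lemma sum_eq [Fintype P] [Fintype G] (f : Susp P G → ℝ) :
    ∑ x, f x = ∑ p, f (base p) + ∑ g, f (top g) := by
  have h := Fintype.sum_sum_type (fun x : P ⊕ G => f (equiv.symm x))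
  have h2 : ∑ x, f x = ∑ x : P ⊕ G, f (equiv.symm x) :=
    Fintype.sum_equiv equiv _ _ (fun x => by simp)
  rw [h2, h]
  rfl

variable [Group G] [MulAction G P]

/-- The action of `G` on `Susp P G`. -/
def smul (g : G) : Susp P G → Susp P G
  | base p => base (g • p)
  | top h => top (g * h)

instance : MulAction G (Susp P G) where
  smul := Susp.smul
  one_smul x := by
    cases x
    · show base ((1 : G) • _) = _; rw [one_smul]
    · show top ((1 : G) * _) = _; rw [one_mul]
  mul_smul g h x := by
    cases x
    · show base ((g * h) • _) = base (g • h • _); rw [mul_smul]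
    · show top (g * h * _) = top (g * (h * _)); rw [mul_assoc]

@[simp] lemma smul_base (g : G) (p : P) : g • (base p : Susp P G) = base (g • p) := rfl

@[simp] lemma smul_top (g h : G) : g • (top h : Susp P G) = top (g * h) := rfl

lemma free (hfree : ∀ (g : G) (p : P), g • p = p → g = 1) (g : G) (x : Susp P G)
    (h : g • x = x) : g = 1 := by
  cases x with
  | base p =>
    rw [smul_base] at h
    injection h with h
    exact hfree g p h
  | top a =>
    rw [smul_top] at h
    injection h with h
    simpa using h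

variable [PartialOrder P] [GPoset G P]

instance : GPoset G (Susp P G) where
  smul_le g x y h := by
    cases x <;> cases y <;> simp at h ⊢
    · exact GPoset.smul_le g _ _ h
    · exact h

omit [GPoset G P] in
lemma up (j : ℕ) (h : Up G P j) : Up G (Susp P G) (j + 1) := by
  obtain ⟨F, hF, he, h0, h1, h2⟩ := h
  let F' : (Susp P G → ℝ) → (G × Fin (j + 1 + 1) → ℝ) := fun t v =>
    Fin.lastCases (motive := fun _ => ℝ) (max 0 (t (top v.1)))
      (fun i => F (fun p => t (base p)) (v.1, i)) v.2
  have hl : ∀ t g, F' t (g, Fin.last _) = max 0 (t (top g)) := fun t g => by simp [F']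
  have hc : ∀ t g (i : Fin (j + 1)), F' t (g, i.castSucc) = F (fun p => t (base p)) (g, i) :=
    fun t g i => by simp [F']
  have hcone : ∀ t ∈ coneSet (Susp P G), (fun p => t (base p)) ∈ coneSet P := by
    rintro t ⟨ht1, ht2⟩
    exact ⟨fun p => ht1 _, fun p q hp hq => ht2 _ _ hp hq⟩
  refine ⟨F', ?_, ?_, ?_, ?_, ?_⟩
  · refine continuous_pi (fun v => ?_)
    obtain ⟨g, i⟩ := v
    refine Fin.lastCases ?_ (fun i => ?_) i
    · simp only [hl]
      exact continuous_const.max (continuous_apply _)
    · simp only [hc]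
      exact (continuous_apply _).comp (hF.comp (continuous_pi (fun p => continuous_apply _)))
  · intro g t a i
    refine Fin.lastCases ?_ (fun i => ?_) i
    · rw [hl, hl]
      show max 0 (t (g⁻¹ • top (g * a))) = _
      rw [smul_top, inv_mul_cancel_left]
    · rw [hc, hc]
      exact he g (fun p => t (base p)) a i
  · rintro t ⟨g, i⟩
    refine Fin.lastCases ?_ (fun i => ?_) i
    · rw [hl]; exact le_max_left _ _
    · rw [hc]; exact h0 _ _
  · intro t ht i g h
    refine Fin.lastCases ?_ (fun i => ?_) i
    · rw [hl, hl]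
      intro hg hh
      have hg' : t (top g) ≠ 0 := fun h0 => hg (by rw [h0, max_self])
      have hh' : t (top h) ≠ 0 := fun h0 => hh (by rw [h0, max_self])
      rcases ht.2 _ _ hg' hh' with h3 | h3
      · exact h3
      · exact (show h = g from h3).symm
    · rw [hc, hc]
      exact h1 _ (hcone t ht) i g h
  · intro t ht hne h0'
    by_cases h3 : (fun p => t (base p)) = 0
    · apply hne
      funext x
      cases x with
      | base p => exact congrFun h3 p
      | top g =>
        have h4 := congrFun h0' (g, Fin.last _)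
        rw [hl] at h4
        have h5 : t (top g) ≤ 0 := by
          have : max 0 (t (top g)) = 0 := h4
          exact max_eq_left_iff.mp this
        exact le_antisymm h5 (ht.1 _)
    · apply h2 _ (hcone t ht) h3
      funext v
      obtain ⟨g, i⟩ := v
      rw [← hc]
      exact congrFun h0' (g, i.castSucc)

omit [GPoset G P] in
lemma xup (n : ℕ) (h : n ∈ xindSet G P) : n + 1 ∈ xindSet G (Susp P G) := by
  obtain ⟨f, hf1, hf2⟩ := h
  refine ⟨fun x => match x with
    | base p => ((f p).1, (f p).2.castSucc)
    | top g => (g, Fin.last _), ?_, ?_⟩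
  · intro x y hxy
    cases x with
    | base p =>
      cases y with
      | base q =>
        rcases hf1 (show p ≤ q from hxy) with h1 | h1
        · left; show (((f p).1, (f p).2.castSucc) : G × Fin (n + 2)) = ((f q).1, (f q).2.castSucc)
          rw [h1]
        · right; exact Fin.castSucc_lt_castSucc_iff.mpr h1
      | top g => right; exact Fin.castSucc_lt_last _
    | top g =>
      cases y with
      | base q => exact absurd hxy (by simp)
      | top h =>
        have : g = h := hxy
        rw [this]
  · intro g x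
    cases x with
    | base p =>
      show ((f (g • p)).1, (f (g • p)).2.castSucc) = (g * (f p).1, (f p).2.castSucc)
      rw [hf2]
      rfl
    | top h => rfl

omit [GPoset G P] in
lemma xlow [Nontrivial G] (n : ℕ) (h : XLow G P n) : XLow G (Susp P G) (n + 1) := by
  intro f hf1 hf2
  obtain ⟨x, hx⟩ := h (fun p => f (base p)) (fun g p => hf1 g (base p))
    (fun p q hpq => hf2 _ _ hpq)
  obtain ⟨g, hg⟩ := exists_ne (1 : G)
  refine ⟨top 1, ?_⟩
  by_contra hcon
  push Not at hcon
  have h1 : f (top g) = (g * (f (top 1)).1, (f (top 1)).2) := by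
    have := hf1 g (top 1)
    rwa [smul_top, mul_one] at this
  have h2 := hf2 (base x) (top 1) trivial
  have h3 := hf2 (base x) (top g) trivial
  rw [h1] at h3
  have h4 : ¬ (f (base x)).2 < (f (top 1)).2 := by
    have : n ≤ (f (base x)).2 := hx
    omega
  rcases h2 with h2 | h2
  · rcases h3 with h3 | h3
    · rw [h2] at h3
      have h5 : (f (top 1)).1 = g * (f (top 1)).1 := congrArg Prod.fst h3
      exact hg (by simpa using h5.symm)
    · exact h4 h3
  · exact h4 h2

end Susp

end Pool.Agent.Lib.MP_28f43d_co
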