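import Mathlib
import Pool.Agent.Lib.MP_28f43d_co.Susp

/-!
Adding a copy of `G` on top extends towers of chains by one step.
-/

set_option autoImplicit false

namespace Pool.Agent.Lib.MP_28f43d_co

open FreeAbelianGroup

universe u

lemma small_mono {V : Type*} [PseudoMetricSpace V] {Y Y' : Set V} {δ δ' : ℝ} (l : ℕ) (h : Y ⊆ Y')
    (hδ : δ ≤ δ') : small Y δ l ⊆ small Y' δ' l := by
  rintro σ ⟨h1, h2, h3⟩
  exact ⟨h1, fun x hx => h (h2 x hx), fun x hx y hy => (h3 x hx y hy).trans hδ⟩

/-- The chain map induced by a self map, as an endomorphism. -/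
def emp {V : Type*} (H : V → V) : AddMonoid.End (Ch V) := mp H

lemma emp_apply {V : Type*} (H : V → V) (c : Ch V) : emp H c = mp H c := rfl

lemma mp_pow {V : Type*} (H : V → V) (n : ℕ) (c : Ch V) :
    (emp H ^ n) c = mp (H^[n]) c := by
  induction n with
  | zero => simp [mp_id' id]
  | succ n ih =>
    rw [pow_succ', end_mul, ih, Function.iterate_succ', emp_apply]
    exact mp_mp _ _ _

section act

variable {G P : Type*} [Group G] [MulAction G P]

lemma act_act (g h : G) (t : P → ℝ) : act g (act h t) = act (g * h) t := by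
  funext p
  simp [act, mul_smul]

lemma act_one (t : P → ℝ) : act (1 : G) t = t := by
  funext p
  simp [act]

lemma act_iterate (g : G) (n : ℕ) (t : P → ℝ) : (act g)^[n] t = act (g ^ n) t := by
  induction n with
  | zero => simp [act_one]
  | succ n ih => rw [Function.iterate_succ_apply', ih, act_act, pow_succ']

lemma mp_act_pow (g : G) :
    (emp (act g : (P → ℝ) → (P → ℝ))) ^ orderOf g = 1 := by
  refine DFunLike.ext _ _ (fun c => ?_)
  rw [mp_pow]
  have : (act g : (P → ℝ) → (P → ℝ))^[orderOf g] = id := by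
    funext t
    rw [act_iterate, pow_orderOf_eq_one, act_one]
    rfl
  rw [this]
  exact mp_id' id (fun _ => rfl) c

lemma act_dist [Fintype P] (g : G) (s t : P → ℝ) : dist (act g s) (act g t) ≤ dist s t := by
  rw [dist_pi_le_iff dist_nonneg]
  intro p
  exact dist_le_pi_dist s t (g⁻¹ • p)

lemma mp_act_small [Fintype P] (g : G) (Y : Set (P → ℝ)) (hY : ∀ t ∈ Y, act g t ∈ Y) (δ : ℝ)
    (l : ℕ) (c : Ch (P → ℝ)) (hc : c ∈ supp (small Y δ l)) :
    (mp (act g) : AddMonoid.End (Ch (P → ℝ))) c ∈ supp (small Y δ l) := by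
  refine map_mem_of_supp (mp (act g)) _ ?_ hc
  rintro σ ⟨h1, h2, h3⟩
  rw [mp_of]
  apply of_mem_supp
  refine ⟨by simp [h1], ?_, ?_⟩
  · intro x hx
    obtain ⟨y, hy, rfl⟩ := List.mem_map.mp hx
    exact hY y (h2 y hy)
  · intro x hx y hy
    obtain ⟨x', hx', rfl⟩ := List.mem_map.mp hx
    obtain ⟨y', hy', rfl⟩ := List.mem_map.mp hy
    exact (act_dist g x' y').trans (h3 x' hx' y' hy')

/-- The chain `om c_m` of a tower is a cycle. -/
lemma bd_om (γ : G) (m : ℕ) (c : ℕ → Ch (P → ℝ)) (x0 : P → ℝ) (hc0 : c 0 = of [x0])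
    (hc : ∀ j < m, bd (c (j + 1)) =
      om (orderOf γ) (mp (act γ) : AddMonoid.End (Ch (P → ℝ))) j (c j)) :
    bd (om (orderOf γ) (mp (act γ) : AddMonoid.End (Ch (P → ℝ))) m (c m)) = 0 := by
  have h1 := om_map (orderOf γ) (mp (act γ) : AddMonoid.End (Ch (P → ℝ)))
    (mp (act γ) : AddMonoid.End (Ch (P → ℝ))) bd (fun x => bd_mp _ x) m (c m)
  rw [h1]
  cases m with
  | zero =>
    rw [hc0]
    have h2 : bd (of [x0] : Ch (P → ℝ)) = of [] := by simp [dl]
    rw [h2]
    unfold om
    simp only [Even.zero, if_true]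
    show mp (act γ : (P → ℝ) → (P → ℝ)) (of []) - of [] = 0
    simp
  | succ m =>
    rw [hc m (Nat.lt_succ_self m)]
    exact om_succ_om _ _ (mp_act_pow γ) _ _

end act

lemma Susp.low {G P : Type u} [Group G] [Fintype G] [Fintype P] [PartialOrder P] [MulAction G P]
    [GPoset G P] (m : ℕ) (h : Low G P m) : Low G (Susp P G) (m + 1) := by
  classical
  obtain ⟨γ, hγ, h⟩ := h
  refine ⟨γ, hγ, fun δ hδ => ?_⟩
  obtain ⟨c, ⟨x0, hc0⟩, hc1, hc2⟩ := h (δ / 2) (by positivity)
  let ι : (P → ℝ) → (Susp P G → ℝ) := fun t x => match x with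
    | Susp.base p => t p
    | Susp.top _ => 0
  have hιb : ∀ t p, ι t (Susp.base p) = t p := fun _ _ => rfl
  have hιt : ∀ t g, ι t (Susp.top g) = 0 := fun _ _ => rfl
  have hιact : ∀ (g : G) t, ι (act g t) = act g (ι t) := by
    intro g t
    funext x
    cases x with
    | base p => rfl
    | top a => rfl
  let q := orderOf γ
  let A : AddMonoid.End (Ch (P → ℝ)) := mp (act γ)
  let A' : AddMonoid.End (Ch (Susp P G → ℝ)) := mp (act γ)
  have hnat : ∀ j c, mp ι (om q A j c) = om q A' j (mp ι c) := by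
    intro j c
    refine om_map q A A' (mp ι) (fun c => ?_) j c
    show mp ι (mp (act γ) c) = mp (act γ) (mp ι c)
    rw [mp_mp, mp_mp]
    congr 2
    funext t
    exact hιact γ t
  -- the embedded chains
  let Y : Set (Susp P G → ℝ) := ι '' realSet P
  have hYact : ∀ (g : G), ∀ t ∈ Y, act g t ∈ Y := by
    rintro g _ ⟨t, ht, rfl⟩
    exact ⟨act g t, act_mem g ht, hιact g t⟩
  have hιdist : ∀ s t, dist (ι s) (ι t) ≤ dist s t := by
    intro s t
    rw [dist_pi_le_iff dist_nonneg]
    intro x
    cases x with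
    | base p => exact dist_le_pi_dist s t p
    | top a =>
      have : dist (ι s (Susp.top a)) (ι t (Susp.top a)) = 0 := by simp [hιt]
      rw [this]; exact dist_nonneg
  have hιsmall : ∀ j ≤ m, mp ι (c j) ∈ supp (small Y (δ / 2) (j + 1)) := by
    intro j hj
    refine map_mem_of_supp (mp ι) _ ?_ (hc2 j hj)
    rintro σ ⟨h1, h2, h3⟩
    rw [mp_of]
    apply of_mem_supp
    refine ⟨by simp [h1], ?_, ?_⟩
    · intro x hx
      obtain ⟨y, hy, rfl⟩ := List.mem_map.mp hx
      exact ⟨y, h2 y hy, rfl⟩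
    · intro x hx y hy
      obtain ⟨x', hx', rfl⟩ := List.mem_map.mp hx
      obtain ⟨y', hy', rfl⟩ := List.mem_map.mp hy
      exact (hιdist x' y').trans (h3 x' hx' y' hy')
  let v : Susp P G → ℝ := Pi.single (Susp.top 1) 1
  have hvb : ∀ p, v (Susp.base p) = 0 := fun p => by simp [v]
  have hv1 : v (Susp.top 1) = 1 := by simp [v]
  have hvt : ∀ g, g ≠ 1 → v (Susp.top g) = 0 := fun g hg => by
    simp only [v]
    rw [Pi.single_eq_of_ne]
    intro h; injection h with h; exact hg h
  have hsumv : ∑ g : G, v (Susp.top g) = 1 := by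
    rw [Finset.sum_eq_single 1]
    · exact hv1
    · intro g _ hg; exact hvt g hg
    · intro h; exact absurd (Finset.mem_univ _) h
  have hseg : ∀ x ∈ Y, ∀ t : ℝ, 0 ≤ t → t ≤ 1 →
      (AffineMap.lineMap x v t : Susp P G → ℝ) ∈ realSet (Susp P G) := by
    rintro _ ⟨x, hx, rfl⟩ t ht0 ht1
    have hb : ∀ p, (AffineMap.lineMap (ι x) v t : Susp P G → ℝ) (Susp.base p) = (1 - t) * x p := by
      intro p
      simp [AffineMap.lineMap_apply_module, hιb, hvb]
    have ht : ∀ g, (AffineMap.lineMap (ι x) v t : Susp P G → ℝ) (Susp.top g)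
        = t * v (Susp.top g) := by
      intro g
      simp [AffineMap.lineMap_apply_module, hιt]
    have hvnn : ∀ g, 0 ≤ v (Susp.top g) := by
      intro g
      by_cases hg : g = 1
      · rw [hg, hv1]; norm_num
      · rw [hvt g hg]
    refine ⟨?_, ?_, ?_⟩
    · intro y
      cases y with
      | base p => rw [hb]; exact mul_nonneg (by linarith) (hx.1 p)
      | top g => rw [ht]; exact mul_nonneg ht0 (hvnn g)
    · rw [Susp.sum_eq]
      simp only [hb, ht]
      rw [← Finset.mul_sum, ← Finset.mul_sum, hx.2.1, hsumv]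
      ring
    · intro y z hy hz
      cases y with
      | base p =>
        cases z with
        | base p' =>
          rw [hb] at hy hz
          exact hx.2.2 p p' (right_ne_zero_of_mul hy) (right_ne_zero_of_mul hz)
        | top g => left; trivial
      | top g =>
        cases z with
        | base p' => right; trivial
        | top g' =>
          rw [ht] at hy hz
          have h1 : g = 1 := by
            by_contra h0
            exact right_ne_zero_of_mul hy (hvt g h0)
          have h2 : g' = 1 := by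
            by_contra h0
            exact right_ne_zero_of_mul hz (hvt g' h0)
          left
          show g = g'
          rw [h1, h2]
  have hYsub : Y ⊆ realSet (Susp P G) := by
    intro x hx
    have := hseg x hx 0 le_rfl zero_le_one
    simpa using this
  have hv : v ∈ realSet (Susp P G) := by
    refine ⟨?_, ?_, ?_⟩
    · intro y
      by_cases h0 : y = Susp.top 1
      · rw [h0, hv1]; norm_num
      · simp only [v]; rw [Pi.single_eq_of_ne h0]
    · simp only [v]
      rw [Finset.sum_pi_single']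
      simp
    · intro y z hy hz
      have h1 : ∀ y, v y ≠ 0 → y = Susp.top 1 := by
        intro y hy
        by_contra h0
        apply hy
        simp only [v]; rw [Pi.single_eq_of_ne h0]
      rw [h1 y hy, h1 z hz]
      left; exact le_refl _
  have hdv : ∀ x ∈ Y, dist x v ≤ 1 := by
    rintro _ ⟨x, hx, rfl⟩
    rw [dist_pi_le_iff zero_le_one]
    intro y
    cases y with
    | base p =>
      rw [hιb, hvb, Real.dist_eq, sub_zero, abs_of_nonneg (hx.1 p)]
      rw [← hx.2.1]
      exact Finset.single_le_sum (fun q _ => hx.1 q) (Finset.mem_univ p)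
    | top g =>
      rw [hιt x g, Real.dist_eq, zero_sub, abs_neg]
      by_cases hg : g = 1
      · rw [hg, hv1]; simp
      · rw [hvt g hg]; simp
  obtain ⟨M, hM, hM'⟩ : ∃ M : ℕ, 0 < M ∧ (1 : ℝ) / M ≤ δ / 2 := by
    obtain ⟨M, hM⟩ := exists_nat_gt (2 / δ)
    have h1 : (0 : ℝ) < 2 / δ := by positivity
    have h2 : (0 : ℝ) < M := h1.trans hM
    refine ⟨M, by exact_mod_cast h2, ?_⟩
    rw [div_le_iff₀ h2]
    rw [div_lt_iff₀ hδ] at hM
    linarith
  have hz1 : om q A' m (mp ι (c m)) ∈ supp (small Y (δ / 2) (m + 1)) :=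
    (om_map_on q _ A' (fun x hx => mp_act_small γ Y (hYact γ) _ _ x hx) A' (AddMonoidHom.id _)
      (fun x _ => rfl) m _ (hιsmall m le_rfl)).1
  have hc'1 : ∀ j < m, bd (mp ι (c (j + 1))) = om q A' j (mp ι (c j)) := by
    intro j hj
    rw [bd_mp, hc1 j hj]
    exact hnat j (c j)
  have hz2 : bd (om q A' m (mp ι (c m))) = 0 :=
    bd_om γ m (fun j => mp ι (c j)) (ι x0) (by simp [hc0]) hc'1
  obtain ⟨d, hd1, hd2⟩ := fill Y (realSet (Susp P G)) v hv (δ / 2) (by positivity) M hM hseg hdv
    (m + 1) _ hz1 hz2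
  refine ⟨fun j => if j ≤ m then mp ι (c j) else d, ⟨ι x0, ?_⟩, ?_, ?_⟩
  · simp [hc0]
  · intro j hj
    by_cases hjm : j < m
    · simp only [show j + 1 ≤ m from hjm, if_true, hjm.le]
      exact hc'1 j hjm
    · have hjm' : j = m := by omega
      subst hjm'
      simp only [le_refl, if_true]
      rw [if_neg (by omega)]
      exact hd2
  · intro j hj
    by_cases hjm : j ≤ m
    · simp only [hjm, if_true]
      exact supp_mono (small_mono _ hYsub (by linarith)) (hιsmall j hjm)
    · have hjm' : j = m + 1 := by omega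
      subst hjm'
      show (if m + 1 ≤ m then mp ι (c (m + 1)) else d) ∈ _
      rw [if_neg (by omega)]
      exact supp_mono (small_mono _ (subset_refl _) (by linarith)) hd1

end Pool.Agent.Lib.MP_28f43d_co
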