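import Mathlib
import Pool.Agent.Lib.MP_28f43d_co.SuspLow

/-!
Graded posets all of whose intervals are chains: their order complex maps to `E_1 G`.
-/

set_option autoImplicit false

namespace Pool.Agent.Lib.MP_28f43d_co

open FreeAbelianGroup

universe u

/-- A graded `G`-poset of rank `n` in which every interval is a chain. -/
structure Graded (G P : Type*) [Group G] [PartialOrder P] [MulAction G P] (ρ : P → ℕ) (n : ℕ) :
    Prop where
  inv : ∀ (g : G) (p : P), ρ (g • p) = ρ p
  mono : ∀ p q : P, p ≤ q → ρ p ≤ ρ q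
  inter : ∀ (p q : P) (k : ℕ), p ≤ q → ρ p ≤ k → k ≤ ρ q → ∃ s, p ≤ s ∧ s ≤ q ∧ ρ s = k
  uniq : ∀ p q s s' : P, p ≤ s → s ≤ q → p ≤ s' → s' ≤ q → ρ s = ρ s' → s = s'
  le : ∀ p : P, ρ p ≤ n
  above : ∀ p : P, ∃ x, p ≤ x ∧ ρ x = n

section

variable {G P : Type*} [Group G] [PartialOrder P] [MulAction G P]
  {ρ : P → ℕ} {n : ℕ}

lemma Graded.eq_of_le (h : Graded G P ρ n) {p q : P} (hpq : p ≤ q) (he : ρ p = ρ q) : p = q :=
  h.uniq p q p q le_rfl hpq hpq le_rfl he

lemma Graded.comparable (h : Graded G P ρ n) {a b p q : P} (hap : a ≤ p) (hpb : p ≤ b)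
    (haq : a ≤ q) (hqb : q ≤ b) : p ≤ q ∨ q ≤ p := by
  rcases le_total (ρ p) (ρ q) with h1 | h1
  · left
    obtain ⟨s, hs1, hs2, hs3⟩ := h.inter p b (ρ q) hpb h1 (h.mono _ _ hqb)
    have := h.uniq a b s q (hap.trans hs1) hs2 haq hqb hs3
    rwa [this] at hs1
  · right
    obtain ⟨s, hs1, hs2, hs3⟩ := h.inter q b (ρ p) hqb h1 (h.mono _ _ hpb)
    have := h.uniq a b s p (haq.trans hs1) hs2 hap hpb hs3
    rwa [this] at hs1

lemma Graded.mem_xindSet (h : Graded G P ρ n) (hfree : ∀ (g : G) (p : P), g • p = p → g = 1) :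
    n ∈ xindSet G P := by
  obtain ⟨e, he⟩ := exists_equivariant hfree
  refine ⟨fun p => (e p, ⟨ρ p, Nat.lt_succ_of_le (h.le p)⟩), ?_, ?_⟩
  · intro p q hpq
    rcases lt_or_eq_of_le (h.mono p q hpq) with h1 | h1
    · right; exact h1
    · left
      have := h.eq_of_le hpq h1
      rw [this]
  · intro g p
    show (e (g • p), (⟨ρ (g • p), _⟩ : Fin (n + 1))) = (g * e p, ⟨ρ p, _⟩)
    rw [he]
    congr 1
    apply Fin.ext
    exact h.inv g p

variable [Fintype P]

open Classical in
/-- Comparability indicator. -/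
noncomputable def cmp (q p : P) : ℝ := if p ≤ q ∨ q ≤ p then 1 else 0

/-- Hat function of the vertex `q`. -/
noncomputable def hat (ρ : P → ℕ) (q : P) (t : P → ℝ) : ℝ :=
  max 0 (∑ p, cmp q p * t p - |∑ p, cmp q p * (((ρ p : ℝ) - ρ q) * t p)|)

lemma hat_nonneg (q : P) (t : P → ℝ) : 0 ≤ hat ρ q t := le_max_left _ _

lemma hat_continuous (q : P) : Continuous (hat ρ q) := by
  unfold hat
  refine continuous_const.max (Continuous.sub ?_ (Continuous.abs ?_))
  · exact continuous_finsetSum _ (fun p _ => continuous_const.mul (continuous_apply p))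
  · exact continuous_finsetSum _ (fun p _ =>
      continuous_const.mul (continuous_const.mul (continuous_apply p)))

lemma hat_smul [GPoset G P] (h : Graded G P ρ n) (g : G) (q : P) (t : P → ℝ) :
    hat ρ (g • q) (act g t) = hat ρ q t := by
  have hc : ∀ p, cmp (g • q) (g • p) = cmp q p := by
    intro p
    unfold cmp
    have : (g • p ≤ g • q ∨ g • q ≤ g • p) ↔ (p ≤ q ∨ q ≤ p) := by
      constructor
      · rintro (h1 | h1)
        · left; have := GPoset.smul_le g⁻¹ _ _ h1; simpa using this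
        · right; have := GPoset.smul_le g⁻¹ _ _ h1; simpa using this
      · rintro (h1 | h1)
        · left; exact GPoset.smul_le g _ _ h1
        · right; exact GPoset.smul_le g _ _ h1
    by_cases hh : p ≤ q ∨ q ≤ p
    · rw [if_pos hh, if_pos (this.mpr hh)]
    · rw [if_neg hh, if_neg (fun x => hh (this.mp x))]
  have ha : ∀ p, act g t (g • p) = t p := by
    intro p; simp [act]
  have h1 : ∑ p, cmp (g • q) p * act g t p = ∑ p, cmp q p * t p := by
    symm
    exact Fintype.sum_equiv (MulAction.toPerm g) _ _ (fun p => by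
      show _ = cmp (g • q) (g • p) * act g t (g • p)
      rw [hc, ha])
  have h2 : ∑ p, cmp (g • q) p * (((ρ p : ℝ) - ρ (g • q)) * act g t p)
      = ∑ p, cmp q p * (((ρ p : ℝ) - ρ q) * t p) := by
    symm
    exact Fintype.sum_equiv (MulAction.toPerm g) _ _ (fun p => by
      show _ = cmp (g • q) (g • p) * (((ρ (g • p) : ℝ) - ρ (g • q)) * act g t (g • p))
      rw [hc, ha, h.inv, h.inv])
  unfold hat
  rw [h1, h2]

/-- A nonzero chain-supported vector has a least and a greatest support element. -/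
lemma exists_min_max {t : P → ℝ} (ht : t ∈ coneSet P) (hne : t ≠ 0) :
    ∃ a b, t a ≠ 0 ∧ t b ≠ 0 ∧ ∀ p, t p ≠ 0 → a ≤ p ∧ p ≤ b := by
  classical
  let S : Finset P := Finset.univ.filter (fun p => t p ≠ 0)
  have hS : S.Nonempty := by
    by_contra h
    rw [Finset.not_nonempty_iff_eq_empty] at h
    apply hne
    funext p
    by_contra hp
    have : p ∈ S := by simp only [S, Finset.mem_filter, Finset.mem_univ, true_and]; exact hp
    rw [h] at this
    simp at this
  obtain ⟨a, ha⟩ := S.exists_minimal hS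
  obtain ⟨b, hb⟩ := S.exists_maximal hS
  have hmem : ∀ p, p ∈ S ↔ t p ≠ 0 := fun p => by simp [S]
  refine ⟨a, b, (hmem a).mp ha.1, (hmem b).mp hb.1, fun p hp => ⟨?_, ?_⟩⟩
  · rcases ht.2 a p ((hmem a).mp ha.1) hp with h | h
    · exact h
    · exact ha.2 ((hmem p).mpr hp) h
  · rcases ht.2 b p ((hmem b).mp hb.1) hp with h | h
    · exact hb.2 ((hmem p).mpr hp) h
    · exact h

lemma hat_eq_of_mem (h : Graded G P ρ n) {t : P → ℝ} {a b q : P}
    (hab : ∀ p, t p ≠ 0 → a ≤ p ∧ p ≤ b) (haq : a ≤ q) (hqb : q ≤ b) :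
    hat ρ q t = max 0 (∑ p, t p - |∑ p, (ρ p : ℝ) * t p - ρ q * ∑ p, t p|) := by
  have hc : ∀ p, t p ≠ 0 → cmp q p = 1 := by
    intro p hp
    obtain ⟨h1, h2⟩ := hab p hp
    unfold cmp
    rw [if_pos (h.comparable h1 h2 haq hqb)]
  unfold hat
  have h1 : ∑ p, cmp q p * t p = ∑ p, t p := by
    apply Finset.sum_congr rfl
    intro p _
    by_cases hp : t p = 0
    · rw [hp, mul_zero]
    · rw [hc p hp, one_mul]
  have h2 : ∑ p, cmp q p * (((ρ p : ℝ) - ρ q) * t p)
      = ∑ p, (ρ p : ℝ) * t p - ρ q * ∑ p, t p := by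
    rw [Finset.mul_sum, ← Finset.sum_sub_distrib]
    apply Finset.sum_congr rfl
    intro p _
    by_cases hp : t p = 0
    · rw [hp]; ring
    · rw [hc p hp]; ring
  rw [h1, h2]

lemma mem_of_hat_pos (h : Graded G P ρ n) {t : P → ℝ} (ht : t ∈ coneSet P) {a b q : P}
    (hab : ∀ p, t p ≠ 0 → a ≤ p ∧ p ≤ b) (hq : 0 < hat ρ q t) : a ≤ q ∧ q ≤ b := by
  have hcn : ∀ p, 0 ≤ cmp q p := by
    intro p; unfold cmp; split_ifs <;> norm_num
  have hpos : |∑ p, cmp q p * (((ρ p : ℝ) - ρ q) * t p)| < ∑ p, cmp q p * t p := by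
    unfold hat at hq
    rcases lt_max_iff.mp hq with h1 | h1
    · exact absurd h1 (lt_irrefl _)
    · linarith
  constructor
  · by_contra hcon
    have h1 : ∑ p, cmp q p * t p ≤ ∑ p, cmp q p * (((ρ p : ℝ) - ρ q) * t p) := by
      apply Finset.sum_le_sum
      intro p _
      by_cases hp : t p = 0
      · rw [hp]; simp
      · by_cases hc : p ≤ q ∨ q ≤ p
        · rcases hc with hc | hc
          · exact absurd ((hab p hp).1.trans hc) hcon
          · have h2 : ρ q < ρ p := by
              rcases lt_or_eq_of_le (h.mono q p hc) with h3 | h3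
              · exact h3
              · have := h.eq_of_le hc h3
                rw [this] at hcon
                exact absurd (hab p hp).1 hcon
            have h3 : (1 : ℝ) ≤ (ρ p : ℝ) - ρ q := by
              have : (ρ q : ℝ) + 1 ≤ ρ p := by exact_mod_cast h2
              linarith
            have h4 : t p ≤ ((ρ p : ℝ) - ρ q) * t p := by
              have := ht.1 p
              nlinarith
            exact mul_le_mul_of_nonneg_left h4 (hcn p)
        · have : cmp q p = 0 := by unfold cmp; rw [if_neg hc]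
          rw [this]; simp
    exact absurd (lt_of_le_of_lt (le_abs_self _) hpos) (not_lt.mpr h1)
  · by_contra hcon
    have h1 : ∑ p, cmp q p * t p ≤ -∑ p, cmp q p * (((ρ p : ℝ) - ρ q) * t p) := by
      rw [← Finset.sum_neg_distrib]
      apply Finset.sum_le_sum
      intro p _
      by_cases hp : t p = 0
      · rw [hp]; simp
      · by_cases hc : p ≤ q ∨ q ≤ p
        · rcases hc with hc | hc
          · have h2 : ρ p < ρ q := by
              rcases lt_or_eq_of_le (h.mono p q hc) with h3 | h3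
              · exact h3
              · have := h.eq_of_le hc h3
                rw [← this] at hcon
                exact absurd (hab p hp).2 hcon
            have h3 : (1 : ℝ) ≤ (ρ q : ℝ) - ρ p := by
              have : (ρ p : ℝ) + 1 ≤ ρ q := by exact_mod_cast h2
              linarith
            have h4 : t p ≤ -(((ρ p : ℝ) - ρ q) * t p) := by
              have := ht.1 p
              nlinarith
            rw [← mul_neg]
            exact mul_le_mul_of_nonneg_left h4 (hcn p)
          · exact absurd (hc.trans (hab p hp).2) hcon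
        · have : cmp q p = 0 := by unfold cmp; rw [if_neg hc]
          rw [this]; simp
    exact absurd (lt_of_le_of_lt (neg_le_abs _) hpos) (not_lt.mpr h1)

lemma hat_unique (h : Graded G P ρ n) {t : P → ℝ} (ht : t ∈ coneSet P) {q q' : P}
    (hq : 0 < hat ρ q t) (hq' : 0 < hat ρ q' t) (hpar : ρ q % 2 = ρ q' % 2) : q = q' := by
  have hne : t ≠ 0 := by
    rintro rfl
    unfold hat at hq
    simp at hq
  obtain ⟨a, b, _, _, hab⟩ := exists_min_max ht hne
  obtain ⟨h1, h2⟩ := mem_of_hat_pos h ht hab hq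
  obtain ⟨h1', h2'⟩ := mem_of_hat_pos h ht hab hq'
  rw [hat_eq_of_mem h hab h1 h2] at hq
  rw [hat_eq_of_mem h hab h1' h2'] at hq'
  have h3 : |∑ p, (ρ p : ℝ) * t p - ρ q * ∑ p, t p| < ∑ p, t p := by
    rcases lt_max_iff.mp hq with h0 | h0
    · exact absurd h0 (lt_irrefl _)
    · linarith
  have h4 : |∑ p, (ρ p : ℝ) * t p - ρ q' * ∑ p, t p| < ∑ p, t p := by
    rcases lt_max_iff.mp hq' with h0 | h0
    · exact absurd h0 (lt_irrefl _)
    · linarith
  have hW : 0 < ∑ p, t p := lt_of_le_of_lt (abs_nonneg _) h3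
  rw [abs_lt] at h3 h4
  have h5 : ρ q < ρ q' + 2 := by
    by_contra hcon
    push Not at hcon
    have : (ρ q' : ℝ) + 2 ≤ ρ q := by exact_mod_cast hcon
    nlinarith [h3.1, h3.2, h4.1, h4.2]
  have h6 : ρ q' < ρ q + 2 := by
    by_contra hcon
    push Not at hcon
    have : (ρ q : ℝ) + 2 ≤ ρ q' := by exact_mod_cast hcon
    nlinarith [h3.1, h3.2, h4.1, h4.2]
  have h7 : ρ q = ρ q' := by omega
  exact h.uniq a b q q' h1 h2 h1' h2' h7

lemma exists_hat_pos (h : Graded G P ρ n) {t : P → ℝ} (ht : t ∈ coneSet P) (hne : t ≠ 0) :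
    ∃ q, 0 < hat ρ q t := by
  obtain ⟨a, b, ha, hb, hab⟩ := exists_min_max ht hne
  have hW : 0 < ∑ p, t p :=
    Finset.sum_pos' (fun p _ => ht.1 p)
      ⟨a, Finset.mem_univ _, lt_of_le_of_ne (ht.1 a) ha.symm⟩
  have h1 : (ρ a : ℝ) * ∑ p, t p ≤ ∑ p, (ρ p : ℝ) * t p := by
    rw [Finset.mul_sum]
    apply Finset.sum_le_sum
    intro p _
    by_cases hp : t p = 0
    · rw [hp]; simp
    · have : (ρ a : ℝ) ≤ ρ p := by exact_mod_cast h.mono _ _ (hab p hp).1
      exact mul_le_mul_of_nonneg_right this (ht.1 p)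
  have h2 : ∑ p, (ρ p : ℝ) * t p ≤ (ρ b : ℝ) * ∑ p, t p := by
    rw [Finset.mul_sum]
    apply Finset.sum_le_sum
    intro p _
    by_cases hp : t p = 0
    · rw [hp]; simp
    · have : (ρ p : ℝ) ≤ ρ b := by exact_mod_cast h.mono _ _ (hab p hp).2
      exact mul_le_mul_of_nonneg_right this (ht.1 p)
  set W := ∑ p, t p with hWdef
  set S := ∑ p, (ρ p : ℝ) * t p with hSdef
  have hy0 : 0 ≤ S / W := by
    apply div_nonneg _ hW.le
    exact Finset.sum_nonneg (fun p _ => mul_nonneg (Nat.cast_nonneg _) (ht.1 p))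
  let k := ⌊S / W⌋₊
  have hk1 : (k : ℝ) ≤ S / W := Nat.floor_le hy0
  have hk2 : S / W < k + 1 := Nat.lt_floor_add_one _
  have hk3 : ρ a ≤ k := by
    apply Nat.le_floor
    rw [le_div_iff₀ hW]
    exact h1
  have hk4 : k ≤ ρ b := by
    have h3 : S / W ≤ ρ b := by
      rw [div_le_iff₀ hW]; exact h2
    exact_mod_cast hk1.trans h3
  obtain ⟨q, hq1, hq2, hq3⟩ := h.inter a b k ((hab a ha).1.trans (hab a ha).2) hk3 hk4
  refine ⟨q, ?_⟩
  rw [hat_eq_of_mem h hab hq1 hq2]
  apply lt_max_of_lt_right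
  rw [← hWdef, ← hSdef, hq3]
  rw [le_div_iff₀ hW] at hk1
  rw [div_lt_iff₀ hW] at hk2
  rw [abs_of_nonneg (by linarith)]
  linarith

theorem Graded.up [GPoset G P] (h : Graded G P ρ n)
    (hfree : ∀ (g : G) (p : P), g • p = p → g = 1) : Up G P 1 := by
  classical
  obtain ⟨e, he⟩ := exists_equivariant hfree
  let F : (P → ℝ) → (G × Fin (1 + 1) → ℝ) := fun t v =>
    ∑ q, if e q = v.1 ∧ ρ q % 2 = (v.2 : ℕ) then hat ρ q t else 0
  refine ⟨F, ?_, ?_, ?_, ?_, ?_⟩
  · refine continuous_pi (fun v => ?_)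
    refine continuous_finsetSum _ (fun q _ => ?_)
    split_ifs
    · exact hat_continuous q
    · exact continuous_const
  · intro g t a i
    symm
    refine Fintype.sum_equiv (MulAction.toPerm g) _ _ (fun q => ?_)
    show _ = if e (g • q) = g * a ∧ ρ (g • q) % 2 = (i : ℕ) then hat ρ (g • q) (act g t) else 0
    rw [he, h.inv, hat_smul h]
    simp only [mul_right_inj]
  · intro t v
    exact Finset.sum_nonneg (fun q _ => by split_ifs; exacts [hat_nonneg q t, le_rfl])
  · have key : ∀ t (a : G) (i : Fin (1 + 1)), F t (a, i) ≠ 0 →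
        ∃ q, e q = a ∧ ρ q % 2 = (i : ℕ) ∧ 0 < hat ρ q t := by
      intro t a i hF
      by_contra hcon
      push Not at hcon
      apply hF
      apply Finset.sum_eq_zero
      intro q _
      split_ifs with hq
      · exact le_antisymm (hcon q hq.1 hq.2) (hat_nonneg q t)
      · rfl
    intro t ht i a b ha hb
    obtain ⟨q, hq1, hq2, hq3⟩ := key t a i ha
    obtain ⟨q', hq1', hq2', hq3'⟩ := key t b i hb
    have := hat_unique h ht hq3 hq3' (by rw [hq2, hq2'])
    rw [← hq1, ← hq1', this]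
  · intro t ht hne hF
    obtain ⟨q, hq⟩ := exists_hat_pos h ht hne
    have h1 := congrFun hF (e q, ⟨ρ q % 2, Nat.mod_lt _ (by norm_num)⟩)
    have h2 : 0 < F t (e q, ⟨ρ q % 2, Nat.mod_lt _ (by norm_num)⟩) := by
      refine Finset.sum_pos' (fun q _ => by split_ifs; exacts [hat_nonneg q t, le_rfl])
        ⟨q, Finset.mem_univ _, ?_⟩
      simp only [and_self, if_true]
      exact hq
    rw [h1] at h2
    exact lt_irrefl _ h2

end

end Pool.Agent.Lib.MP_28f43d_co
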