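import Mathlib
import Pool.Agent.Lib.MP_28f43d_co.Graded

/-!
The doubling construction: two copies of a graded `G`-poset `P` and, for every pair `(x, y)` of
elements of maximal rank, a new element above `x` in the first and above `y` in the second copy.
-/

set_option autoImplicit false

namespace Pool.Agent.Lib.MP_28f43d_co

open FreeAbelianGroup

universe u

/-- Two copies of `P` and one new element for each pair of elements of rank `n`. -/
inductive Glue (P : Type u) (ρ : P → ℕ) (n : ℕ) : Type u
  | low (b : Bool) (p : P) : Glue P ρ n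
  | high (x y : P) (hx : ρ x = n) (hy : ρ y = n) : Glue P ρ n

namespace Glue

variable {P : Type u} {ρ : P → ℕ} {n : ℕ}

/-- Selecting one of two elements. -/
def sel (b : Bool) (x y : P) : P :=
  match b with
  | true => x
  | false => y

/-- The order of `Glue P ρ n`. -/
def le [PartialOrder P] : Glue P ρ n → Glue P ρ n → Prop
  | low b p, low b' q => b = b' ∧ p ≤ q
  | low b p, high x y _ _ => p ≤ sel b x y
  | high _ _ _ _, low _ _ => False
  | high x y _ _, high x' y' _ _ => x = x' ∧ y = y'

instance [PartialOrder P] : PartialOrder (Glue P ρ n) where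
  le := Glue.le
  le_refl a := by cases a <;> simp [Glue.le]
  le_trans a b c hab hbc := by
    cases a <;> cases b <;> cases c <;> simp only [Glue.le] at hab hbc ⊢
    · exact ⟨hab.1.trans hbc.1, hab.2.trans hbc.2⟩
    · obtain ⟨rfl, h⟩ := hab
      exact h.trans hbc
    · obtain ⟨rfl, rfl⟩ := hbc
      exact hab
    · exact ⟨hab.1.trans hbc.1, hab.2.trans hbc.2⟩
  le_antisymm a b hab hba := by
    cases a <;> cases b <;> simp only [Glue.le] at hab hba
    · obtain ⟨rfl, h⟩ := hab
      rw [le_antisymm h hba.2]
    · obtain ⟨rfl, rfl⟩ := hab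
      rfl

lemma low_le_low [PartialOrder P] (b b' : Bool) (p q : P) :
    (low b p : Glue P ρ n) ≤ low b' q ↔ b = b' ∧ p ≤ q := Iff.rfl

lemma low_le_high [PartialOrder P] (b : Bool) (p x y : P) (hx : ρ x = n) (hy : ρ y = n) :
    (low b p : Glue P ρ n) ≤ high x y hx hy ↔ p ≤ sel b x y := Iff.rfl

lemma not_high_le_low [PartialOrder P] (b : Bool) (p x y : P) (hx : ρ x = n) (hy : ρ y = n) :
    ¬ (high x y hx hy : Glue P ρ n) ≤ low b p := fun h => h

lemma high_le_high [PartialOrder P] (x y x' y' : P) (hx : ρ x = n) (hy : ρ y = n)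
    (hx' : ρ x' = n) (hy' : ρ y' = n) :
    (high x y hx hy : Glue P ρ n) ≤ high x' y' hx' hy' ↔ x = x' ∧ y = y' := Iff.rfl

noncomputable instance [Fintype P] : Fintype (Glue P ρ n) := by
  classical
  exact Fintype.ofInjective (β := (Bool × P) ⊕ (P × P))
    (fun z => match z with
      | low b p => Sum.inl (b, p)
      | high x y _ _ => Sum.inr (x, y))
    (by
      intro a b h
      cases a <;> cases b <;> simp_all)

/-- The rank function of `Glue P ρ n`. -/
def rank : Glue P ρ n → ℕ
  | low _ p => ρ p
  | high _ _ _ _ => n + 1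

@[simp] lemma rank_low (b : Bool) (p : P) : rank (low b p : Glue P ρ n) = ρ p := rfl

@[simp] lemma rank_high (x y : P) (hx : ρ x = n) (hy : ρ y = n) :
    rank (high x y hx hy : Glue P ρ n) = n + 1 := rfl

lemma rank_sel (b : Bool) {x y : P} (hx : ρ x = n) (hy : ρ y = n) : ρ (sel b x y) = n := by
  cases b <;> assumption

end Glue

/-- The action on `Glue P ρ n`; the rank function is assumed to be invariant. -/
abbrev Glue.mulAction {G P : Type u} [Group G] [MulAction G P] {ρ : P → ℕ} {n : ℕ}
    (hinv : ∀ (g : G) (p : P), ρ (g • p) = ρ p) : MulAction G (Glue P ρ n) where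
  smul g z := match z with
    | Glue.low b p => Glue.low b (g • p)
    | Glue.high x y hx hy => Glue.high (g • x) (g • y) (by rw [hinv, hx]) (by rw [hinv, hy])
  one_smul z := by
    cases z with
    | low b p =>
      show Glue.low b ((1 : G) • p) = _
      rw [one_smul]
    | high x y hx hy =>
      show Glue.high ((1 : G) • x) ((1 : G) • y) _ _ = _
      congr 1 <;> rw [one_smul]
  mul_smul g h z := by
    cases z with
    | low b p =>
      show Glue.low b ((g * h) • p) = Glue.low b (g • h • p)
      rw [mul_smul]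
    | high x y hx hy =>
      show Glue.high ((g * h) • x) ((g * h) • y) _ _ = Glue.high (g • h • x) (g • h • y) _ _
      congr 1 <;> rw [mul_smul]

section

variable {G P : Type u} [Group G] [PartialOrder P] [MulAction G P]
  {ρ : P → ℕ} {n : ℕ}

lemma Glue.graded (h : Graded G P ρ n) :
    letI := Glue.mulAction (n := n) h.inv
    Graded G (Glue P ρ n) Glue.rank (n + 1) := by
  let _ := Glue.mulAction (n := n) h.inv
  refine ⟨?_, ?_, ?_, ?_, ?_, ?_⟩
  · intro g p
    cases p with
    | low b p => exact h.inv g p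
    | high x y hx hy => rfl
  · intro p q hpq
    cases p with
    | low b p =>
      cases q with
      | low b' q => exact h.mono _ _ hpq.2
      | high x y hx hy => exact (h.le p).trans (Nat.le_succ n)
    | high x y hx hy =>
      cases q with
      | low b' q => exact absurd hpq (Glue.not_high_le_low _ _ _ _ _ _)
      | high x' y' hx' hy' => exact le_rfl
  · intro p q k hpq h1 h2
    cases p with
    | low b p =>
      cases q with
      | low b' q =>
        obtain ⟨rfl, hpq'⟩ := (Glue.low_le_low _ _ _ _).mp hpq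
        obtain ⟨s, hs1, hs2, hs3⟩ := h.inter p q k hpq' h1 h2
        exact ⟨Glue.low b s, ⟨rfl, hs1⟩, ⟨rfl, hs2⟩, hs3⟩
      | high x y hx hy =>
        have hpq' := (Glue.low_le_high b p x y hx hy).mp hpq
        by_cases hk : k ≤ n
        · obtain ⟨s, hs1, hs2, hs3⟩ := h.inter p _ k hpq' h1 (by
            rw [Glue.rank_sel b hx hy]; exact hk)
          exact ⟨Glue.low b s, ⟨rfl, hs1⟩, hs2, hs3⟩
        · rw [Glue.rank_high] at h2
          refine ⟨Glue.high x y hx hy, hpq, le_rfl, ?_⟩
          rw [Glue.rank_high]; omega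
    | high x y hx hy =>
      cases q with
      | low b' q => exact absurd hpq (Glue.not_high_le_low _ _ _ _ _ _)
      | high x' y' hx' hy' =>
        rw [Glue.rank_high] at h1 h2
        refine ⟨Glue.high x y hx hy, le_rfl, hpq, ?_⟩
        rw [Glue.rank_high]; omega
  · intro p q s s' h1 h2 h3 h4 h5
    cases p with
    | low b p =>
      cases s with
      | low b1 s =>
        obtain ⟨rfl, h1'⟩ := (Glue.low_le_low _ _ _ _).mp h1
        cases s' with
        | low b2 s' =>
          obtain ⟨rfl, h3'⟩ := (Glue.low_le_low _ _ _ _).mp h3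
          cases q with
          | low b3 q =>
            rw [h.uniq p q s s' h1' h2.2 h3' h4.2 h5]
          | high x y hx hy =>
            rw [h.uniq p _ s s' h1' h2 h3' h4 h5]
        | high x' y' hx' hy' =>
          have := h.le s
          rw [Glue.rank_low, Glue.rank_high] at h5
          omega
      | high x y hx hy =>
        cases s' with
        | low b2 s' =>
          have := h.le s'
          rw [Glue.rank_low, Glue.rank_high] at h5
          omega
        | high x' y' hx' hy' =>
          cases q with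
          | low b3 q => exact absurd h2 (Glue.not_high_le_low _ _ _ _ _ _)
          | high x'' y'' hx'' hy'' =>
            obtain ⟨rfl, rfl⟩ := (Glue.high_le_high _ _ _ _ _ _ _ _).mp h2
            obtain ⟨rfl, rfl⟩ := (Glue.high_le_high _ _ _ _ _ _ _ _).mp h4
            rfl
    | high x y hx hy =>
      cases s with
      | low b1 s => exact absurd h1 (Glue.not_high_le_low _ _ _ _ _ _)
      | high x' y' hx' hy' =>
        cases s' with
        | low b1 s => exact absurd h3 (Glue.not_high_le_low _ _ _ _ _ _)
        | high x'' y'' hx'' hy'' =>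
          obtain ⟨rfl, rfl⟩ := (Glue.high_le_high _ _ _ _ _ _ _ _).mp h1
          obtain ⟨rfl, rfl⟩ := (Glue.high_le_high _ _ _ _ _ _ _ _).mp h3
          rfl
  · intro p
    cases p with
    | low b p => exact (h.le p).trans (Nat.le_succ n)
    | high x y hx hy => exact le_rfl
  · intro p
    cases p with
    | low b p =>
      obtain ⟨x, hx1, hx2⟩ := h.above p
      refine ⟨Glue.high x x hx2 hx2, ?_, rfl⟩
      show p ≤ Glue.sel b x x
      cases b <;> exact hx1
    | high x y hx hy => exact ⟨_, le_rfl, rfl⟩

lemma Glue.gposet [GPoset G P] (h : Graded G P ρ n) :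
    letI := Glue.mulAction (n := n) h.inv
    GPoset G (Glue P ρ n) := by
  let _ := Glue.mulAction (n := n) h.inv
  refine ⟨fun g p q hpq => ?_⟩
  cases p with
  | low b p =>
    cases q with
    | low b' q => exact ⟨hpq.1, GPoset.smul_le g _ _ hpq.2⟩
    | high x y hx hy =>
      have hpq' := (Glue.low_le_high b p x y hx hy).mp hpq
      show g • p ≤ Glue.sel b (g • x) (g • y)
      have : Glue.sel b (g • x) (g • y) = g • Glue.sel b x y := by cases b <;> rfl
      rw [this]
      exact GPoset.smul_le g _ _ hpq'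
  | high x y hx hy =>
    cases q with
    | low b' q => exact absurd hpq (Glue.not_high_le_low _ _ _ _ _ _)
    | high x' y' hx' hy' =>
      obtain ⟨rfl, rfl⟩ := (Glue.high_le_high _ _ _ _ _ _ _ _).mp hpq
      exact le_rfl

omit [PartialOrder P] in
lemma Glue.free (hinv : ∀ (g : G) (p : P), ρ (g • p) = ρ p)
    (hfree : ∀ (g : G) (p : P), g • p = p → g = 1) :
    letI := Glue.mulAction (n := n) hinv
    ∀ (g : G) (z : Glue P ρ n), g • z = z → g = 1 := by
  let _ := Glue.mulAction (n := n) hinv
  intro g z hz
  cases z with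
  | low b p =>
    have h1 : (Glue.low b (g • p) : Glue P ρ n) = Glue.low b p := hz
    injection h1 with _ h2
    exact hfree g p h2
  | high x y hx hy =>
    have h1 : (Glue.high (g • x) (g • y) (by rw [hinv, hx]) (by rw [hinv, hy]) : Glue P ρ n)
        = Glue.high x y hx hy := hz
    injection h1 with h2 _
    exact hfree g x h2

lemma Glue.xlow [Nontrivial G] (h : Graded G P ρ n) (hx : XLow G P n) :
    letI := Glue.mulAction (n := n) h.inv
    XLow G (Glue P ρ n) (n + 1) := by
  let _ := Glue.mulAction (n := n) h.inv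
  intro f hf1 hf2
  by_contra hcon
  push Not at hcon
  have key : ∀ b : Bool, ∃ x, ρ x = n ∧ (f (Glue.low b x)).2 = n := by
    intro b
    obtain ⟨x, hx⟩ := hx (fun p => f (Glue.low b p)) (fun g p => hf1 g (Glue.low b p))
      (fun p q hpq => hf2 _ _ ⟨rfl, hpq⟩)
    obtain ⟨y, hy1, hy2⟩ := h.above x
    have h1 : (f (Glue.low b y)).2 < n + 1 := hcon _
    have h2 : n ≤ (f (Glue.low b x)).2 := hx
    rcases hf2 (Glue.low b x) (Glue.low b y) ⟨rfl, hy1⟩ with h3 | h3
    · refine ⟨y, hy2, ?_⟩
      rw [← h3] at h1 ⊢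
      omega
    · refine ⟨y, hy2, ?_⟩
      omega
  obtain ⟨x, hx1, hx2⟩ := key true
  obtain ⟨y, hy1, hy2⟩ := key false
  obtain ⟨g, hg⟩ : ∃ g : G, g * (f (Glue.low false y)).1 ≠ (f (Glue.low true x)).1 := by
    by_cases h1 : (f (Glue.low false y)).1 = (f (Glue.low true x)).1
    · obtain ⟨g, hg⟩ := exists_ne (1 : G)
      refine ⟨g, ?_⟩
      rw [h1]
      intro h2
      exact hg (by simpa using h2)
    · exact ⟨1, by simpa using h1⟩
  have hgy : ρ (g • y) = n := by rw [h.inv, hy1]
  have h1 : f (Glue.low false (g • y)) = (g * (f (Glue.low false y)).1, n) := by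
    have := hf1 g (Glue.low false y)
    rw [hy2] at this
    exact this
  have h2 := hf2 (Glue.low true x) (Glue.high x (g • y) hx1 hgy) (show x ≤ x from le_rfl)
  have h3 := hf2 (Glue.low false (g • y)) (Glue.high x (g • y) hx1 hgy)
    (show g • y ≤ g • y from le_rfl)
  have h4 : (f (Glue.high x (g • y) hx1 hgy)).2 < n + 1 := hcon _
  rcases h2 with h2 | h2
  · rcases h3 with h3 | h3
    · rw [← h2, h1] at h3
      exact hg (congrArg Prod.fst h3)
    · rw [h1] at h3
      have : n < (f (Glue.high x (g • y) hx1 hgy)).2 := h3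
      omega
  · rw [hx2] at h2
    omega

end

section edges

variable {G P : Type*} [Group G] [PartialOrder P] [MulAction G P]

open Classical in
/-- The vertex of the realisation given by an element of the poset. -/
noncomputable def vtx (p : P) : P → ℝ := Pi.single p 1

omit [PartialOrder P] in
lemma act_vtx (g : G) (p : P) : act g (vtx p) = vtx (g • p) := by
  classical
  funext q
  unfold act vtx
  by_cases h : q = g • p
  · subst h; simp
  · rw [Pi.single_eq_of_ne h, Pi.single_eq_of_ne]
    intro h1
    apply h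
    rw [← h1, smul_inv_smul]

lemma edge [Fintype P] (p q : P) (h : p ≤ q ∨ q ≤ p) (δ : ℝ) (hδ : 0 < δ) :
    ∃ c ∈ supp (small (realSet P) δ 2), bd c = of [vtx q] - of [vtx p] := by
  classical
  obtain ⟨M, hM, hM'⟩ : ∃ M : ℕ, 0 < M ∧ (1 : ℝ) / M ≤ δ := by
    obtain ⟨M, hM⟩ := exists_nat_gt (1 / δ)
    have h1 : (0 : ℝ) < 1 / δ := by positivity
    have h2 : (0 : ℝ) < M := h1.trans hM
    refine ⟨M, by exact_mod_cast h2, ?_⟩
    rw [div_le_iff₀ h2]
    rw [div_lt_iff₀ hδ] at hM
    linarith
  have hval : ∀ a b : P, vtx a b = if b = a then 1 else 0 := by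
    intro a b
    unfold vtx
    by_cases hab : b = a
    · subst hab; simp
    · rw [Pi.single_eq_of_ne hab, if_neg hab]
  have hsum : ∀ a : P, ∑ b, vtx a b = 1 := by
    intro a
    simp [hval]
  have hnn : ∀ a b : P, 0 ≤ vtx a b := by
    intro a b
    rw [hval]; split_ifs <;> norm_num
  have hseg : ∀ x ∈ ({vtx p, vtx q} : Set (P → ℝ)), ∀ t : ℝ, 0 ≤ t → t ≤ 1 →
      (AffineMap.lineMap x (vtx q) t : P → ℝ) ∈ realSet P := by
    intro x hx t ht0 ht1
    obtain ⟨a, ha, rfl⟩ : ∃ a, (a = p ∨ a = q) ∧ vtx a = x := by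
      rcases hx with rfl | hx
      · exact ⟨p, Or.inl rfl, rfl⟩
      · exact ⟨q, Or.inr rfl, hx.symm⟩
    have hv : ∀ b, (AffineMap.lineMap (vtx a) (vtx q) t : P → ℝ) b
        = (1 - t) * vtx a b + t * vtx q b := by
      intro b
      simp [AffineMap.lineMap_apply_module]
    refine ⟨?_, ?_, ?_⟩
    · intro b
      rw [hv]
      exact add_nonneg (mul_nonneg (by linarith) (hnn _ _)) (mul_nonneg ht0 (hnn _ _))
    · simp only [hv]
      rw [Finset.sum_add_distrib, ← Finset.mul_sum, ← Finset.mul_sum, hsum, hsum]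
      ring
    · have hs : ∀ b, (AffineMap.lineMap (vtx a) (vtx q) t : P → ℝ) b ≠ 0 → b = p ∨ b = q := by
        intro b hb
        by_contra hcon
        push Not at hcon
        apply hb
        rw [hv, hval, hval, if_neg, if_neg hcon.2]
        · simp
        · rcases ha with rfl | rfl
          · exact hcon.1
          · exact hcon.2
      intro b b' hb hb'
      rcases hs b hb with rfl | rfl <;> rcases hs b' hb' with rfl | rfl
      · exact Or.inl le_rfl
      · exact h
      · exact h.symm
      · exact Or.inl le_rfl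
  have hvq : (vtx q : P → ℝ) ∈ realSet P := by
    have := hseg (vtx q) (by simp) 0 le_rfl zero_le_one
    simpa using this
  have hd : ∀ x ∈ ({vtx p, vtx q} : Set (P → ℝ)), dist x (vtx q) ≤ 1 := by
    intro x hx
    rw [dist_pi_le_iff zero_le_one]
    intro b
    have h1 : ∀ a, |vtx a b - vtx q b| ≤ 1 := by
      intro a
      rw [hval, hval]
      split_ifs <;> norm_num
    rcases hx with rfl | hx
    · exact h1 p
    · rw [hx]; exact h1 q
  have hz : (of [vtx q] - of [vtx p] : Ch (P → ℝ)) ∈ supp (small ({vtx p, vtx q} : Set (P → ℝ)) 0 1) := by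
    apply AddSubgroup.sub_mem
    · apply of_mem_supp
      refine ⟨rfl, by simp, by simp⟩
    · apply of_mem_supp
      refine ⟨rfl, by simp, by simp⟩
  have hbz : bd (of [vtx q] - of [vtx p] : Ch (P → ℝ)) = 0 := by
    simp [dl]
  obtain ⟨c, hc1, hc2⟩ := fill ({vtx p, vtx q} : Set (P → ℝ)) (realSet P) (vtx q) hvq 0 le_rfl M hM
    hseg hd 1 _ hz hbz
  exact ⟨c, supp_mono (small_mono _ (subset_refl _) (by linarith)) hc1, hc2⟩

end edges

lemma Glue.low_one {G P : Type u} [Group G] [Nontrivial G] [Fintype P] [PartialOrder P]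
    [MulAction G P] {ρ : P → ℕ} {n : ℕ} (h : Graded G P ρ n) (hne : ∃ p, ρ p = n) :
    letI := Glue.mulAction (n := n) h.inv
    Low G (Glue P ρ n) 1 := by
  classical
  let _ := Glue.mulAction (n := n) h.inv
  obtain ⟨γ, hγ⟩ := exists_ne (1 : G)
  obtain ⟨x, hx⟩ := hne
  refine ⟨γ, hγ, fun δ hδ => ?_⟩
  have hγx : ρ (γ • x) = n := by rw [h.inv, hx]
  let p0 : Glue P ρ n := Glue.low true x
  let p1 : Glue P ρ n := Glue.high x x hx hx
  let p2 : Glue P ρ n := Glue.low false x
  let p3 : Glue P ρ n := Glue.high (γ • x) x hγx hx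
  let p4 : Glue P ρ n := Glue.low true (γ • x)
  obtain ⟨c1, hc1, hb1⟩ := edge p0 p1 (Or.inl (show x ≤ x from le_rfl)) δ hδ
  obtain ⟨c2, hc2, hb2⟩ := edge p1 p2 (Or.inr (show x ≤ x from le_rfl)) δ hδ
  obtain ⟨c3, hc3, hb3⟩ := edge p2 p3 (Or.inl (show x ≤ x from le_rfl)) δ hδ
  obtain ⟨c4, hc4, hb4⟩ := edge p3 p4 (Or.inr (show γ • x ≤ γ • x from le_rfl)) δ hδ
  refine ⟨fun j => if j = 0 then of [vtx p0] else c1 + c2 + c3 + c4, ⟨vtx p0, by simp⟩, ?_, ?_⟩
  · intro j hj
    have hj0 : j = 0 := by omega
    subst hj0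
    simp only [if_true, zero_add, one_ne_zero, if_false]
    rw [map_add, map_add, map_add, hb1, hb2, hb3, hb4]
    unfold om
    simp only [Even.zero, if_true]
    show _ = mp (act γ) (of [vtx p0]) - of [vtx p0]
    rw [mp_of, List.map_cons, List.map_nil, act_vtx]
    have : γ • p0 = p4 := rfl
    rw [this]
    abel
  · intro j hj
    by_cases hj0 : j = 0
    · subst hj0
      simp only [if_true]
      apply of_mem_supp
      refine ⟨rfl, ?_, ?_⟩
      · intro y hy
        rw [List.mem_singleton] at hy
        subst hy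
        refine ⟨?_, ?_, ?_⟩
        · intro b
          unfold vtx
          by_cases hb : b = p0
          · subst hb; simp
          · rw [Pi.single_eq_of_ne hb]
        · unfold vtx
          rw [Finset.sum_pi_single']
          simp
        · have h1 : ∀ b, vtx p0 b ≠ 0 → b = p0 := by
            intro b hb
            by_contra h0
            apply hb
            unfold vtx
            rw [Pi.single_eq_of_ne h0]
          intro b b' hb hb'
          rw [h1 b hb, h1 b' hb']
          exact Or.inl le_rfl
      · intro y hy z hz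
        rw [List.mem_singleton] at hy hz
        rw [hy, hz, dist_self]
        exact hδ.le
    · have hj1 : j = 1 := by omega
      subst hj1
      simp only [one_ne_zero, if_false]
      exact AddSubgroup.add_mem _ (AddSubgroup.add_mem _ (AddSubgroup.add_mem _ hc1 hc2) hc3) hc4

end Pool.Agent.Lib.MP_28f43d_co
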