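import Mathlib
import Pool.Agent.Lib.MP_28f43d_co.Glue

/-!
Assembly: graded trees of posets with large cross-index, then repeated suspension.
-/

set_option autoImplicit false

namespace Pool.Agent.Lib.MP_28f43d_co

universe u

instance Q.fintype (G : Type*) [Fintype G] (n : ℕ) : Fintype (Q G n) :=
  inferInstanceAs (Fintype (G × Fin (n + 1)))

instance Q.gposet (G : Type*) [Group G] (n : ℕ) : GPoset G (Q G n) where
  smul_le g p q h := by
    rcases h with rfl | h
    · exact le_rfl
    · exact Or.inr h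

theorem exists_tree (G : Type u) [Group G] [Fintype G] [Nontrivial G] (n : ℕ) :
    ∃ (P : Type u) (_ : Fintype P) (_ : PartialOrder P) (_ : MulAction G P) (_ : GPoset G P)
      (ρ : P → ℕ), (∀ (g : G) (p : P), g • p = p → g = 1) ∧ Graded G P ρ n ∧ (∃ p, ρ p = n) ∧
      XLow G P n ∧ (0 < n → Low G P 1) := by
  induction n with
  | zero =>
    have hle : ∀ p q : Q G 0, p ≤ q → p = q := by
      intro p q h
      rcases h with h | h
      · exact h
      · have h1 : (p.2 : ℕ) < (q.2 : ℕ) := h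
        have h2 : (q.2 : ℕ) < 0 + 1 := q.2.isLt
        omega
    refine ⟨Q G 0, inferInstance, inferInstance, inferInstance, inferInstance, fun _ => 0, ?_,
      ?_, ?_, ?_, ?_⟩
    · intro g p h
      have h1 : g * p.1 = p.1 := congrArg Prod.fst h
      simpa using h1
    · refine ⟨fun _ _ => rfl, fun _ _ _ => le_rfl, ?_, ?_, fun _ => le_rfl, fun p => ⟨p, le_rfl, rfl⟩⟩
      · intro p q k hpq _ hk
        exact ⟨p, le_rfl, hpq, by omega⟩
      · intro p q s s' h1 _ h3 _ _
        rw [← hle _ _ h1, ← hle _ _ h3]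
    · exact ⟨(1, 0), rfl⟩
    · intro f _ _
      exact ⟨(1, 0), Nat.zero_le _⟩
    · intro h; exact absurd h (lt_irrefl _)
  | succ n ih =>
    obtain ⟨P, i1, i2, i3, i4, ρ, hfree, hg, hne, hx, _⟩ := ih
    refine ⟨Glue P ρ n, inferInstance, inferInstance, Glue.mulAction (n := n) hg.inv,
      Glue.gposet hg, Glue.rank, Glue.free hg.inv hfree, Glue.graded hg, ?_, Glue.xlow hg hx,
      fun _ => Glue.low_one hg hne⟩
    obtain ⟨p, hp⟩ := hne
    exact ⟨Glue.high p p hp hp, rfl⟩

theorem exists_main (G : Type u) [Group G] [Fintype G] [Nontrivial G] (n' : ℕ) (hn' : 0 < n')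
    (m' : ℕ) :
    ∃ (P : Type u) (_ : Fintype P) (_ : PartialOrder P) (_ : MulAction G P) (_ : GPoset G P),
      (∀ (g : G) (p : P), g • p = p → g = 1) ∧ Up G P (m' + 1) ∧ Low G P (m' + 1) ∧
      (n' + m') ∈ xindSet G P ∧ XLow G P (n' + m') := by
  induction m' with
  | zero =>
    obtain ⟨P, i1, i2, i3, i4, ρ, hfree, hg, _, hx, hl⟩ := exists_tree G n'
    exact ⟨P, i1, i2, i3, i4, hfree, hg.up hfree, hl hn', hg.mem_xindSet hfree, hx⟩
  | succ m' ih =>
    obtain ⟨P, i1, i2, i3, i4, hfree, hu, hl, hxu, hx⟩ := ih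
    exact ⟨Susp P G, inferInstance, inferInstance, inferInstance, inferInstance,
      Susp.free hfree, Susp.up _ hu, Susp.low _ hl, Susp.xup _ hxu, Susp.xlow _ hx⟩

end Pool.Agent.Lib.MP_28f43d_co
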